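import Pool.Agent.H31.ST.Closure

/-! COVER.  helper31 -/

open Set Filter Topology Matrix

noncomputable section

namespace H31.ST

theorem IsTerm.tQ {lam : ℝ} {a : ℕ → ℕ} {s : St} {n : ℕ} (h : IsTerm a s n) (E : ℝ) :
    tQ lam a s E = xt lam a n E := by
  cases s with
  | plus k => simp only [IsTerm] at h; subst h; rfl
  | minus k j =>
    obtain ⟨h1, h2⟩ := h
    subst h2
    simp only [H31.ST.tQ, xt, Mm, h1]

theorem IsTerm.term {a : ℕ → ℕ} {s : St} {n : ℕ} (h : IsTerm a s n) : term a s = (n, 0) := by
  cases s with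
  | plus k => simp only [IsTerm] at h; subst h; rfl
  | minus k j =>
    obtain ⟨h1, h2⟩ := h
    simp only [H31.ST.term, h1, h2, if_true]

/-- the Laguerre inequality for the trace polynomials -/
theorem xt_lag (hP : T_POLY) (hZ : T_ZEROS) (hG : T_GAP) (hL : T_LAG) {lam : ℝ} (hl : 0 < lam)
    {a : ℕ → ℕ} (ha : ∀ k, 1 ≤ a k) {n : ℕ} (hn : 1 ≤ n) :
    ∃ p : Polynomial ℝ, p.Monic ∧ p.natDegree = qd a n ∧ (∀ E, p.eval E = xt lam a n E) ∧
      ∀ E : ℝ, |p.eval E| < R lam → p.derivative.eval E ≠ 0 ∧
        |p.derivative.derivative.eval E| * (R lam - |p.eval E|) ≤ (p.derivative.eval E) ^ 2 := by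
  obtain ⟨p, h1, h2, h3⟩ := hP lam a ha n hn
  refine ⟨p, h1, h2, h3, ?_⟩
  have hq : 1 ≤ qd a n := by
    have : ∀ n, 1 ≤ n → 1 ≤ qd a n := by
      intro n
      induction n using Nat.strong_induction_on with
      | _ n ih =>
        intro hn
        match n, hn with
        | 1, _ => exact le_refl _
        | (n + 2), _ =>
          have := ih (n + 1) (by omega) (by omega)
          simp only [qd]
          have h5 := Nat.mul_le_mul (ha n) this
          omega
    exact this n hn
  apply hL (R lam) p (R_pos lam) h1 (by omega)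
  · obtain ⟨r, hr, hr2⟩ := hZ lam hl a ha n hn
    rw [h2]
    exact ⟨r, hr, fun i => by rw [h3]; exact hr2 i⟩
  · intro s t hst hs ht
    rw [h3] at hs ht
    obtain ⟨E, hE, hE2⟩ := hG lam hl a ha n hn s t hst hs ht
    exact ⟨E, hE, by rw [h3]; exact hE2⟩

theorem cover (hC : T_COUNT) (hD : T_DISJ) (hT : T_TRACK) (hB : T_BAND) (hV : T_ADMV)
    (hP : T_POLY) (hZ : T_ZEROS) (hG : T_GAP) (hL : T_LAG) : T_COVER := by
  intro lam hl a ha n hn
  obtain ⟨F, hF, hFs⟩ := hC a ha n hn
  obtain ⟨p, p1, p2, p3, p4⟩ := xt_lag hP hZ hG hL hl ha hn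
  -- the case |x_n| < 2
  have main : ∀ E : ℝ, |xt lam a n E| < 2 → ∃ c ∈ F, E - off lam c.1 ∈ Cd lam c.2 := by
    intro E hE
    by_contra hcon
    push Not at hcon
    have hroot : ∀ c ∈ F, ∃ z, xt lam a n z = xt lam a n E ∧ z - off lam c.1 ∈ Cd lam c.2 := by
      intro c hc
      obtain ⟨s, hs1, hs2⟩ := hFs c hc
      obtain ⟨s₁, s₂, g1, g2, g3⟩ := track_closed hT hB hV hl ha hs1
      obtain ⟨_, hlt, _, hCd, hcont, hmono, _, hlo, hhi, _⟩ := hB lam hl c.2 (hV a ha _ _ _ hs1).1
      have hs22 : s₂ ^ 2 = 1 := by rcases g2 with g2 | g2 <;> rw [g2] <;> norm_num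
      have hv : s₂ * xt lam a n E ∈ Ioo (-2 : ℝ) 2 := by
        have h1 : |s₂| = 1 := by rcases g2 with g2 | g2 <;> rw [g2] <;> norm_num
        have h2 : |s₂ * xt lam a n E| < 2 := by rw [abs_mul, h1, one_mul]; exact hE
        exact abs_lt.1 h2
      have hc2 : ContinuousOn (fun x => (run lam c.2 (2, x)).2) (Icc (lo lam c.2) (hi lam c.2)) :=
        continuous_snd.comp_continuousOn hcont
      have := intermediate_value_Ioo hlt.le hc2
      simp only [hlo, hhi] at this
      obtain ⟨x, hx, hx2⟩ := this hv
      refine ⟨x + off lam c.1, ?_, by rw [add_sub_cancel_right, hCd]; exact hx⟩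
      have hx3 := (g3 x (Ioo_subset_Icc_self hx)).1
      have hx4 : (run lam c.2 (2, x)).2 = s₂ * tQ lam a s (x + off lam c.1) := by rw [hx3]
      simp only at hx2
      rw [hx4, hs2.tQ] at hx2
      have : s₂ * (s₂ * xt lam a n (x + off lam c.1)) = s₂ * (s₂ * xt lam a n E) := by rw [hx2]
      rw [← mul_assoc, ← mul_assoc, ← sq, hs22, one_mul, one_mul] at this
      exact this
    choose! z hz1 hz2 using hroot
    set q : Polynomial ℝ := p - Polynomial.C (xt lam a n E) with hq
    have hdeg : q.natDegree = qd a n := by rw [hq, Polynomial.natDegree_sub_C, p2]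
    have hqd : 1 ≤ qd a n := by
      by_contra h0
      have h0' : qd a n = 0 := by omega
      have : ∀ n, 1 ≤ n → 1 ≤ qd a n := by
        intro n
        induction n using Nat.strong_induction_on with
        | _ n ih =>
          intro hn
          match n, hn with
          | 1, _ => exact le_refl _
          | (n + 2), _ =>
            have := ih (n + 1) (by omega) (by omega)
            simp only [qd]
            have h5 := Nat.mul_le_mul (ha n) this
            omega
      have := this n hn
      omega
    have hq0 : q ≠ 0 := by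
      intro h0; rw [h0] at hdeg; simp at hdeg; omega
    have hinj : Set.InjOn z F := by
      intro c hc c' hc' hcc
      obtain ⟨s, hs1, hs2⟩ := hFs c hc
      obtain ⟨s', hs1', hs2'⟩ := hFs c' hc'
      have e1 := hz2 c hc
      have e2 := hz2 c' hc'
      simp only [Finset.mem_coe] at hc hc'
      rw [← hcc] at e2
      obtain ⟨e3, e4⟩ := hD lam hl a ha c.1 c'.1 c.2 c'.2 s s' hs1 hs1'
        (by rw [hs2.term, hs2'.term]) (z c) e1 e2
      exact Prod.ext e3 e4
    have hsub : insert E (F.image z) ⊆ q.roots.toFinset := by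
      intro x hx
      rw [Multiset.mem_toFinset, Polynomial.mem_roots hq0]
      simp only [Finset.mem_insert, Finset.mem_image] at hx
      rcases hx with hx | ⟨c, hc, hx⟩
      · rw [hx, Polynomial.IsRoot.def, hq, Polynomial.eval_sub, Polynomial.eval_C, p3, sub_self]
      · rw [← hx, Polynomial.IsRoot.def, hq, Polynomial.eval_sub, Polynomial.eval_C, p3, hz1 c hc,
          sub_self]
    have hnot : E ∉ F.image z := by
      intro hmem
      obtain ⟨c, hc, hx⟩ := Finset.mem_image.1 hmem
      have := hz2 c hc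
      rw [hx] at this
      exact hcon c hc this
    have hcard := Finset.card_le_card hsub
    rw [Finset.card_insert_of_notMem hnot, Finset.card_image_of_injOn hinj, hF] at hcard
    have h1 := Multiset.toFinset_card_le q.roots
    have h2 := q.card_roots'
    omega
  -- general case
  intro E hE
  set U : Set ℝ := ⋃ c ∈ F, Icc (lo lam c.2 + off lam c.1) (hi lam c.2 + off lam c.1) with hU
  have hUc : IsClosed U := by
    rw [hU]
    exact Set.Finite.isClosed_biUnion (Finset.finite_toSet F) (fun c _ => isClosed_Icc)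
  have hsub : {z | |xt lam a n z| < 2} ⊆ U := by
    intro z hz
    obtain ⟨c, hc, hc2⟩ := main z hz
    obtain ⟨s, hs1, hs2⟩ := hFs c hc
    obtain ⟨_, hlt, _, hCd, _⟩ := hB lam hl c.2 (hV a ha _ _ _ hs1).1
    rw [hCd] at hc2
    simp only [hU, mem_iUnion]
    exact ⟨c, hc, by constructor <;> linarith [hc2.1, hc2.2]⟩
  have hEU : E ∈ U := by
    rw [← hUc.closure_eq]
    apply closure_mono hsub
    rcases lt_or_eq_of_le hE with hlt | heq
    · exact subset_closure hlt
    · by_contra hcl
      rw [mem_closure_iff_frequently, not_frequently] at hcl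
      simp only [Set.mem_ofPred_eq, not_lt] at hcl
      have hd := (p4 E (by rw [p3, heq]; exact R_gt hl)).1
      apply hd
      have hcon : Continuous (fun z => xt lam a n z) := by
        have : (fun z => xt lam a n z) = fun z => p.eval z := by ext z; rw [p3]
        rw [this]; exact p.continuous
      rcases (abs_eq (by norm_num : (0:ℝ) ≤ 2)).1 heq with h2 | h2
      · have hmin : IsLocalMin (fun z => p.eval z) E := by
          have : ∀ᶠ z in 𝓝 E, 0 < xt lam a n z :=
            hcon.continuousAt.eventually (lt_mem_nhds (by simp only; rw [h2]; norm_num))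
          filter_upwards [hcl, this] with z hz1 hz2
          rw [p3, p3, h2]
          rw [abs_of_pos hz2] at hz1
          exact hz1
        have := hmin.deriv_eq_zero
        rwa [Polynomial.deriv] at this
      · have hmax : IsLocalMax (fun z => p.eval z) E := by
          have : ∀ᶠ z in 𝓝 E, xt lam a n z < 0 :=
            hcon.continuousAt.eventually (gt_mem_nhds (by simp only; rw [h2]; norm_num))
          filter_upwards [hcl, this] with z hz1 hz2
          rw [p3, p3, h2]
          rw [abs_of_neg hz2] at hz1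
          linarith
        have := hmax.deriv_eq_zero
        rwa [Polynomial.deriv] at this
  simp only [hU, mem_iUnion] at hEU
  obtain ⟨c, hc, hc2⟩ := hEU
  obtain ⟨s, hs1, hs2⟩ := hFs c hc
  exact ⟨c.1, c.2, s, hs1, hs2, by constructor <;> linarith [hc2.1, hc2.2]⟩

end H31.ST
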