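import Pool.Agent.H31.ST.Basic

/-! FINAL.  helper31 -/

open Set Filter Topology Matrix MeasureTheory

noncomputable section

namespace H31.ST

theorem ae_const_of_levels {γ : Type*} [CompleteLinearOrder γ] [TopologicalSpace γ]
    [OrderTopology γ] [DenselyOrdered γ] [TopologicalSpace.SeparableSpace γ] {μ : Measure ℝ}
    (f : ℝ → γ) (h : ∀ t, (∀ᵐ x ∂μ, t ≤ f x) ∨ (∀ᵐ x ∂μ, f x < t)) :
    ∃ c, ∀ᵐ x ∂μ, f x = c := by
  set c := sSup {t | ∀ᵐ x ∂μ, t ≤ f x} with hc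
  refine ⟨c, ?_⟩
  obtain ⟨D, hDc, hDd⟩ := TopologicalSpace.exists_countable_dense γ
  have h1 : ∀ t < c, ∀ᵐ x ∂μ, t ≤ f x := by
    intro t ht
    obtain ⟨t', ht', htt⟩ := lt_sSup_iff.1 ht
    filter_upwards [ht'] with x hx
    exact htt.le.trans hx
  have h2 : ∀ t, c < t → ∀ᵐ x ∂μ, f x < t := by
    intro t ht
    rcases h t with h3 | h3
    · have h4 : t ≤ c := le_sSup (show t ∈ {t | ∀ᵐ x ∂μ, t ≤ f x} from h3)
      exact absurd h4 (not_le.2 ht)
    · exact h3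
  have h3 : ∀ᵐ x ∂μ, ∀ t ∈ D, (t < c → t ≤ f x) ∧ (c < t → f x < t) := by
    rw [ae_ball_iff hDc]
    intro t _
    by_cases h4 : t < c
    · filter_upwards [h1 t h4] with x hx
      exact ⟨fun _ => hx, fun h5 => absurd h5 (not_lt.2 h4.le)⟩
    · by_cases h5 : c < t
      · filter_upwards [h2 t h5] with x hx
        exact ⟨fun h6 => absurd h6 h4, fun _ => hx⟩
      · exact Eventually.of_forall fun x => ⟨fun h6 => absurd h6 h4, fun h6 => absurd h6 h5⟩
  filter_upwards [h3] with x hx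
  rcases lt_trichotomy (f x) c with h4 | h4 | h4
  · obtain ⟨t, ht, ht1, ht2⟩ := hDd.exists_between h4
    exact absurd ((hx t ht).1 ht2) (not_le.2 ht1)
  · exact h4
  · obtain ⟨t, ht, ht1, ht2⟩ := hDd.exists_between h4
    exact absurd ((hx t ht).2 ht1) (not_lt.2 ht2.le)

/-- growth condition on the digits -/
def Gro (α : ℝ) : Prop := ∃ G : ℝ, ∀ k, (dig α k : ℝ) ≤ G * ((k : ℝ) + 1) ^ 2

theorem dig_meas (hD : T_DIG) (k : ℕ) : Measurable (fun α => (dig α k : ℝ)) := by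
  have h1 : Measurable (fun α => dig α k) := (measurable_pi_apply k).comp hD.1
  exact (measurable_of_countable (fun n : ℕ => (n : ℝ))).comp h1

theorem gro_meas (hD : T_DIG) : MeasurableSet {α : ℝ | Gro α} := by
  have : {α : ℝ | Gro α} = ⋃ N : ℕ, ⋂ k : ℕ, {α | (dig α k : ℝ) ≤ N * ((k : ℝ) + 1) ^ 2} := by
    ext α
    simp only [Set.mem_ofPred_eq, mem_iUnion, mem_iInter, Gro]
    constructor
    · rintro ⟨G, hG⟩
      obtain ⟨N, hN⟩ := exists_nat_ge G
      exact ⟨N, fun k => (hG k).trans (mul_le_mul_of_nonneg_right hN (by positivity))⟩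
    · rintro ⟨N, hN⟩
      exact ⟨N, hN⟩
  rw [this]
  refine MeasurableSet.iUnion fun N => MeasurableSet.iInter fun k => ?_
  exact measurableSet_le (dig_meas hD k) measurable_const

theorem irr_meas : MeasurableSet {α : ℝ | Irrational α} := by
  have : {α : ℝ | Irrational α} = (Set.range ((↑) : ℚ → ℝ))ᶜ := by
    ext α; simp [Irrational]
  rw [this]
  exact (Set.countable_range _).measurableSet.compl

theorem gro_gauss (hD : T_DIG) {α : ℝ} (hα : α ∈ Ioo (0 : ℝ) 1) (hi : Irrational α)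
    (h : Gro (gauss (gauss α))) : Gro α := by
  obtain ⟨G, hG⟩ := h
  have hs := (hD.2.2 α hα hi).2.2.2
  rw [hs] at hG
  refine ⟨max (max G 0) (max (dig α 0) (dig α 1)), fun k => ?_⟩
  match k with
  | 0 =>
    have h1 : (dig α 0 : ℝ) ≤ max (max G 0) (max (dig α 0 : ℝ) (dig α 1)) :=
      (le_max_left _ _).trans (le_max_right _ _)
    simpa using h1
  | 1 =>
    have h1 : (dig α 1 : ℝ) ≤ max (max G 0) (max (dig α 0 : ℝ) (dig α 1)) :=
      (le_max_right _ _).trans (le_max_right _ _)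
    have h2 : 0 ≤ max (max G 0) (max (dig α 0 : ℝ) (dig α 1)) :=
      (le_max_right _ _).trans (le_max_left _ _)
    push_cast
    nlinarith
  | (k + 2) =>
    have h1 := hG k
    simp only [shift2] at h1
    have h2 : G ≤ max (max G 0) (max (dig α 0 : ℝ) (dig α 1)) :=
      (le_max_left _ _).trans (le_max_left _ _)
    have h3 : 0 ≤ max (max G 0) (max (dig α 0 : ℝ) (dig α 1)) :=
      (le_max_right _ _).trans (le_max_left _ _)
    have hk : (0 : ℝ) ≤ k := Nat.cast_nonneg k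
    refine h1.trans ?_
    push_cast
    calc G * ((k : ℝ) + 1) ^ 2 ≤
        max (max G 0) (max (dig α 0 : ℝ) (dig α 1)) * ((k : ℝ) + 1) ^ 2 :=
          mul_le_mul_of_nonneg_right h2 (by positivity)
      _ ≤ max (max G 0) (max (dig α 0 : ℝ) (dig α 1)) * ((k : ℝ) + 2 + 1) ^ 2 := by
          apply mul_le_mul_of_nonneg_left _ h3
          nlinarith

theorem ae_irr : ∀ᵐ α ∂(volume.restrict (Ioo (0 : ℝ) 1)), Irrational α := by
  apply ae_restrict_of_ae
  have : (Set.range ((↑) : ℚ → ℝ)).Countable := Set.countable_range _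
  filter_upwards [this.ae_notMem volume] with α hα
  exact hα

theorem level_dichotomy (hD : T_DIG) (hG : T_GROWTH) (hZ : T_ZERO1) {γ : Type*} [LinearOrder γ]
    (F : (ℕ → ℕ) → γ)
    (hF : ∀ t : γ, MeasurableSet {a : ℕ → ℕ | (∀ k, 1 ≤ a k) ∧ t ≤ F a})
    (hle : ∀ a : ℕ → ℕ, (∀ k, 1 ≤ a k) → (∃ G : ℝ, ∀ k, (a k : ℝ) ≤ G * ((k : ℝ) + 1) ^ 2) →
      F (shift2 a) ≤ F a) (t : γ) :
    (∀ᵐ α ∂(volume.restrict (Ioo (0 : ℝ) 1)), t ≤ F (dig α)) ∨
    (∀ᵐ α ∂(volume.restrict (Ioo (0 : ℝ) 1)), F (dig α) < t) := by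
  set A : Set ℝ := (Ioo (0 : ℝ) 1 ∩ {α | Irrational α}) ∩ ({α | Gro α} ∩
    dig ⁻¹' {a : ℕ → ℕ | (∀ k, 1 ≤ a k) ∧ t ≤ F a}) with hA
  have hAm : MeasurableSet A :=
    (measurableSet_Ioo.inter irr_meas).inter ((gro_meas hD).inter (hD.1 (hF t)))
  have hAsub : A ⊆ Ioo 0 1 := fun α hα => hα.1.1
  have hinv : ∀ α ∈ Ioo (0 : ℝ) 1, Irrational α → gauss (gauss α) ∈ A → α ∈ A := by
    intro α hα hi hg
    have hgro := gro_gauss hD hα hi hg.2.1
    have h1 := (hD.2.2 α hα hi).2.2.1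
    have hs := (hD.2.2 α hα hi).2.2.2
    refine ⟨⟨hα, hi⟩, hgro, h1, ?_⟩
    have h2 := hg.2.2.2
    rw [hs] at h2
    exact h2.trans (hle (dig α) h1 hgro)
  rcases hZ A hAsub hAm hinv with h0 | h0
  · right
    have h1 : ∀ᵐ α ∂(volume.restrict (Ioo (0 : ℝ) 1)), α ∉ A := by
      apply ae_restrict_of_ae
      exact measure_eq_zero_iff_ae_notMem.1 h0
    filter_upwards [h1, ae_irr, hG, ae_restrict_mem measurableSet_Ioo] with α h2 h3 h4 h5
    by_contra h6
    rw [not_lt] at h6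
    exact h2 ⟨⟨h5, h3⟩, h4, (hD.2.2 α h5 h3).2.2.1, h6⟩
  · left
    have h1 : ∀ᵐ α ∂(volume.restrict (Ioo (0 : ℝ) 1)), α ∉ Ioo (0 : ℝ) 1 \ A := by
      apply ae_restrict_of_ae
      exact measure_eq_zero_iff_ae_notMem.1 h0
    filter_upwards [h1, ae_restrict_mem measurableSet_Ioo] with α h2 h3
    have h4 : α ∈ A := by
      by_contra h5
      exact h2 ⟨h3, h5⟩
    exact h4.2.2.2

theorem final (hI : T_INEQ) (hD : T_DIG) (hG : T_GROWTH) (hZ : T_ZERO1) (hM : T_MEASD)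
    (hS1 : T_SPEC1) (hS2 : T_SPEC2) : T_FINAL := by
  intro lam hl
  obtain ⟨cH, hcH⟩ := ae_const_of_levels (μ := volume.restrict (Ioo (0 : ℝ) 1))
    (fun α => dimH (SpecSet lam (dig α)))
    (fun t => level_dichotomy hD hG hZ (fun a => dimH (SpecSet lam a)) (hM lam hl).1
      (fun a h1 h2 => (hI lam hl a h1 h2).1) t)
  obtain ⟨cB, hcB⟩ := ae_const_of_levels (μ := volume.restrict (Ioo (0 : ℝ) 1))
    (fun α => ubd (SpecSet lam (dig α)))
    (fun t => level_dichotomy hD hG hZ (fun a => ubd (SpecSet lam a)) (hM lam hl).2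
      (fun a h1 h2 => (hI lam hl a h1 h2).2) t)
  refine ⟨cH, cB, ?_⟩
  filter_upwards [hcH, hcB, ae_irr, ae_restrict_mem measurableSet_Ioo] with α h1 h2 h3 h4
  intro ω H hH
  have : {E : ℝ | (E : ℂ) ∈ spectrum ℂ H} = SpecSet lam (dig α) := by
    ext E
    constructor
    · intro hE
      by_contra h5
      exact hS1 lam hl α h4 h3 ω H hH E h5 hE
    · intro hE
      exact hS2 lam hl α h4 h3 ω H hH E hE
  rw [this]
  exact ⟨h1, h2⟩

end H31.ST
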