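import Pool.Agent.H31.ST.Closure
import Pool.Agent.H21.ST.TEL

/-! INEQ: the inequality between the dimensions for `shift2 a` and `a`.  helper31 -/

open Set Filter Topology Matrix

noncomputable section

namespace H31.ST

theorem chain_len {K : ℝ} {n : ℕ} {x : ℕ → ℝ → ℝ} {l h : ℕ → ℝ} (H : IsChain K n x l h)
    (hK : 1 ≤ K) {j : ℕ} (hj : j ≤ n) : h j - l j ≤ (1 - 1 / K) ^ j * (h 0 - l 0) := by
  induction j with
  | zero => simp
  | succ j ih =>
    have h1 := H.rat j (by omega)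
    have h2 := ih (by omega)
    have h3 : 0 ≤ 1 - 1 / K := by
      rw [sub_nonneg, div_le_one (by linarith)]; exact hK
    calc h (j + 1) - l (j + 1) ≤ (1 - 1 / K) * (h j - l j) := h1
      _ ≤ (1 - 1 / K) * ((1 - 1 / K) ^ j * (h 0 - l 0)) := mul_le_mul_of_nonneg_left h2 h3
      _ = _ := by rw [pow_succ]; ring

theorem chain_low {K : ℝ} {n : ℕ} {x : ℕ → ℝ → ℝ} {l h : ℕ → ℝ} (H : IsChain K n x l h)
    (hK : 1 ≤ K) {j : ℕ} (hj : j < n) {m : ℝ} (hm : 0 ≤ m)
    (hs : ∀ t ∈ Icc (l (j + 1)) (h (j + 1)),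
      deriv (x (j + 1)) t ≤ K * m ^ 3 * deriv (x j) t) :
    h j - l j ≤ K * m ^ 3 * Real.exp (4 * K) * (h (j + 1) - l (j + 1)) := by
  have L0 := H21.Lev.of_chain H hj.le
  have L1 := H21.Lev.of_chain H (j := j + 1) hj
  obtain ⟨ξ, hξ, hξ'⟩ := exists_deriv_eq_slope (x (j + 1)) L1.lt
    L1.diff.continuous.continuousOn L1.diff.differentiableOn
  rw [L1.xl, L1.xh] at hξ'
  have hξm := Ioo_subset_Icc_self hξ
  have hξ0 : ξ ∈ Icc (l j) (h j) :=
    ⟨(H.nl j hj).trans hξm.1, hξm.2.trans (H.nh j hj)⟩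
  have h1 := hs ξ hξm
  have h2 := (L0.dbound (by linarith) hξ0).2
  rw [hξ'] at h1
  have hl1 : 0 < h (j + 1) - l (j + 1) := sub_pos.2 L1.lt
  have hl0 : 0 < h j - l j := sub_pos.2 L0.lt
  have h3 : (2 - -2) / (h (j + 1) - l (j + 1)) ≤
      K * m ^ 3 * (Real.exp (4 * K) * (4 / (h j - l j))) :=
    h1.trans (mul_le_mul_of_nonneg_left h2 (by positivity))
  rw [div_le_iff₀ hl1] at h3
  have h4 : (4:ℝ) * (h j - l j) ≤ K * m ^ 3 * (Real.exp (4 * K) * (4 / (h j - l j))) *
      (h (j + 1) - l (j + 1)) * (h j - l j) := by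
    apply mul_le_mul_of_nonneg_right _ hl0.le
    linarith
  have h5 : K * m ^ 3 * (Real.exp (4 * K) * (4 / (h j - l j))) *
      (h (j + 1) - l (j + 1)) * (h j - l j) =
      4 * (K * m ^ 3 * Real.exp (4 * K) * (h (j + 1) - l (j + 1))) := by
    field_simp
  rw [h5] at h4
  linarith

/-- level of a state -/
def lev : St → ℕ
  | St.plus k => k
  | St.minus k _ => k

theorem step_lev {a : ℕ → ℕ} {s t : St} {σ : Sym} (h : Step a s σ t) : lev t ≤ lev s + 2 := by
  cases h <;> simp [lev]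

theorem step_m {a : ℕ → ℕ} {s t : St} {σ : Sym} (h : Step a s σ t) :
    σ.m ≤ a (lev s) + a (lev s + 1) + 2 := by
  cases h with
  | pp k i h1 h2 => show a k ≤ a k + a (k + 1) + 2; omega
  | pm k i h1 h2 => show a k + 1 ≤ a k + a (k + 1) + 2; omega
  | mm k j h1 h2 => show 2 ≤ a k + a (k + 1) + 2; omega
  | mp k i h1 h2 => show a (k + 1) + 1 ≤ a k + a (k + 1) + 2; omega
  | mn k i h1 h2 => show a (k + 1) + 2 ≤ a k + a (k + 1) + 2; omega

theorem range_map_succ {α : Type*} (ξ : ℕ → α) (n : ℕ) :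
    (List.range (n + 1)).map ξ = (List.range n).map ξ ++ [ξ n] := by
  rw [List.range_succ, List.map_append, List.map_singleton]

theorem path_adm {a : ℕ → ℕ} {r : St} {ξ : ℕ → Sym} {σ : ℕ → St} (h0 : σ 0 = r)
    (hst : ∀ n, Step a (σ n) (ξ n) (σ (n + 1))) (n : ℕ) :
    Adm a r ((List.range n).map ξ) (σ n) := by
  induction n with
  | zero => rw [h0]; exact Adm.nil _
  | succ n ih => rw [range_map_succ]; exact Adm.snoc ih (hst n)

theorem path_lev {a : ℕ → ℕ} {ξ : ℕ → Sym} {σ : ℕ → St} {b : Bool} (h0 : σ 0 = rootSt b)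
    (hst : ∀ n, Step a (σ n) (ξ n) (σ (n + 1))) (n : ℕ) : lev (σ n) ≤ 2 * n := by
  induction n with
  | zero => rw [h0]; cases b <;> simp [rootSt, lev]
  | succ n ih => have := step_lev (hst n); omega

/-- the closed band -/
def CB (lam : ℝ) (w : List Sym) : Set ℝ := Icc (lo lam w) (hi lam w)

theorem CB_snoc (hB : T_BAND) {lam : ℝ} (hl : 0 < lam) {w : List Sym} (hw : VW w) {s : Sym}
    (hs : s.Valid) : CB lam (w ++ [s]) ⊆ CB lam w := by
  obtain ⟨_, _, _, _, _, _, _, _, _, h⟩ := hB lam hl w hw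
  obtain ⟨b, e, h1, h2, h3, h4, _⟩ := h s hs
  intro x hx
  exact ⟨by linarith [hx.1], by linarith [hx.2]⟩

theorem CB_append (hB : T_BAND) {lam : ℝ} (hl : 0 < lam) {w w' : List Sym} (hw : VW (w ++ w')) :
    CB lam (w ++ w') ⊆ CB lam w := by
  induction w' using List.reverseRecOn with
  | nil => simp
  | append_singleton w' s ih =>
    rw [← List.append_assoc] at hw ⊢
    obtain ⟨h1, h2⟩ := VW_snoc.1 hw
    exact (CB_snoc hB hl h1 h2).trans (ih h1)

theorem CB_take (hB : T_BAND) {lam : ℝ} (hl : 0 < lam) {w : List Sym} (hw : VW w) (n : ℕ) :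
    CB lam w ⊆ CB lam (w.take n) := by
  have := CB_append hB hl (w := w.take n) (w' := w.drop n) (by rw [List.take_append_drop]; exact hw)
  rwa [List.take_append_drop] at this

/-- converse part of PATH for a sequence of words which starts with a prefix -/
theorem path_conv (hPath : T_PATH) (hB : T_BAND) (hV : T_ADMV) {lam : ℝ} (hl : 0 < lam)
    {a : ℕ → ℕ} (ha : ∀ k, 1 ≤ a k) {b : Bool} {u : List Sym} {ξ : ℕ → Sym} {S : ℕ → St}
    (hW : ∀ n, Adm a (rootSt b) (u ++ (List.range n).map ξ) (S n)) {x : ℝ}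
    (hx : ∀ n, x - off lam b ∈ CB lam (u ++ (List.range n).map ξ)) : x ∈ SpecSet lam a := by
  set W : ℕ → List Sym := fun n => u ++ (List.range n).map ξ with hWdef
  have hlen : ∀ n, (W n).length = u.length + n := by intro n; simp [hWdef]
  have hpre : ∀ m n, m ≤ n → W m <+: W n := by
    intro m n hmn
    obtain ⟨k, rfl⟩ := Nat.exists_eq_add_of_le hmn
    induction k with
    | zero => exact List.prefix_rfl
    | succ k ih =>
      refine (ih (by omega)).trans ?_
      refine ⟨[ξ (m + k)], ?_⟩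
      simp only [hWdef, ← add_assoc, range_map_succ, List.append_assoc]
  set ξ' : ℕ → Sym := fun i => (W (i + 1))[i]'(by rw [hlen]; omega) with hξ'
  have hword : ∀ n, (List.range n).map ξ' = (W n).take n := by
    intro n
    apply List.ext_getElem
    · simp [hlen]
    · intro i h1 h2
      simp only [List.length_map, List.length_range] at h1
      rw [List.getElem_map, List.getElem_range, List.getElem_take]
      simp only [hξ']
      exact (hpre (i + 1) n (by omega)).getElem _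
  have hadm : ∀ n, ∃ t, Adm a (rootSt b) ((List.range n).map ξ') t := by
    intro n
    rw [hword]
    exact (hW n).take n
  choose σ' hσ' using hadm
  refine (hPath lam hl a ha).2 b ξ' σ' ?_ ?_ x ?_
  · exact (hσ' 0).det (Adm.nil _)
  · intro n
    have h1 := hσ' (n + 1)
    rw [range_map_succ] at h1
    rcases h1.snoc_inv with ⟨h2, _⟩ | ⟨w1, σ1, t1, h2, h3, h4⟩
    · simp at h2
    · obtain ⟨e1, e2⟩ := List.append_inj' h2 rfl
      obtain rfl : ξ' n = σ1 := by simpa using e2
      subst e1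
      rw [(hσ' n).det h3]
      exact h4
  · intro n
    rw [hword]
    exact CB_take hB hl (hV a ha b _ _ (hW n)).1 n (hx n)

theorem nested_point (l h : ℕ → ℝ) (hlh : ∀ n, l n ≤ h n)
    (hn : ∀ n, Icc (l (n + 1)) (h (n + 1)) ⊆ Icc (l n) (h n)) : ∃ x, ∀ n, x ∈ Icc (l n) (h n) := by
  have := IsCompact.nonempty_iInter_of_sequence_nonempty_isCompact_isClosed
    (fun n => Icc (l n) (h n)) hn (fun n => nonempty_Icc.2 (hlh n)) isCompact_Icc
    (fun n => isClosed_Icc)
  obtain ⟨x, hx⟩ := this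
  exact ⟨x, fun n => mem_iInter.1 hx n⟩

theorem pre_length (a : ℕ → ℕ) (b : Bool) : (pre a b).length = a 0 - 1 + 1 := by
  simp [pre]

theorem pre_inj {a : ℕ → ℕ} {b b' : Bool} {v v' : List Sym}
    (h : pre a b ++ v = pre a b' ++ v') : b = b' ∧ v = v' := by
  obtain ⟨h1, h2⟩ := List.append_inj h (by rw [pre_length, pre_length])
  refine ⟨?_, h2⟩
  unfold pre at h1
  obtain ⟨_, h3⟩ := List.append_inj h1 rfl
  simp only [List.cons.injEq, Sym.mk.injEq, and_true, true_and] at h3
  cases b <;> cases b' <;> simp_all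

/-- upper bound of the length of a coded band -/
theorem band_upper (hB : T_BAND) (hV : T_ADMV) {lam : ℝ} (hl : 0 < lam) {Kc : ℝ} (hKc : 1 ≤ Kc)
    (hch : ∀ a : ℕ → ℕ, (∀ k, 1 ≤ a k) →
      ∀ (b : Bool) (w : List Sym) (s : St), Adm a (rootSt b) w s →
      ∃ x : ℕ → ℝ → ℝ,
        IsChain Kc w.length x (fun j => lo lam (w.take j)) (fun j => hi lam (w.take j)) ∧
        (∀ j ≤ w.length, ∀ t ∈ Icc (lo lam (w.take j)) (hi lam (w.take j)),
          x j t = (run lam (w.take j) (2, t)).2) ∧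
        (∀ j, ∀ hj : j < w.length, ∀ t ∈ Icc (lo lam (w.take (j + 1))) (hi lam (w.take (j + 1))),
          deriv (x (j + 1)) t ≤ Kc * ((w[j]'hj).m : ℝ) ^ 3 * deriv (x j) t))
    {a : ℕ → ℕ} (ha : ∀ k, 1 ≤ a k) {b : Bool} {w : List Sym} {s : St}
    (h : Adm a (rootSt b) w s) : hi lam w - lo lam w ≤ 4 * (1 - 1 / Kc) ^ w.length := by
  obtain ⟨x, H, _, _⟩ := hch a ha b w s h
  have h1 := chain_len H hKc (le_refl _)
  simp only [List.take_length, List.take_zero] at h1
  obtain ⟨g1, _, g2, _⟩ := hB lam hl [] VW_nil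
  have h3 : 0 ≤ 1 - 1 / Kc := by
    rw [sub_nonneg, div_le_one (by linarith)]; exact hKc
  calc hi lam w - lo lam w ≤ (1 - 1 / Kc) ^ w.length * (hi lam [] - lo lam []) := h1
    _ ≤ (1 - 1 / Kc) ^ w.length * 4 := by
        apply mul_le_mul_of_nonneg_left (by linarith) (pow_nonneg h3 _)
    _ = _ := by ring

/-- lower bound of the ratio of consecutive bands -/
theorem band_lower {lam : ℝ} {Kc : ℝ} (hKc : 1 ≤ Kc)
    (hch : ∀ a : ℕ → ℕ, (∀ k, 1 ≤ a k) →
      ∀ (b : Bool) (w : List Sym) (s : St), Adm a (rootSt b) w s →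
      ∃ x : ℕ → ℝ → ℝ,
        IsChain Kc w.length x (fun j => lo lam (w.take j)) (fun j => hi lam (w.take j)) ∧
        (∀ j ≤ w.length, ∀ t ∈ Icc (lo lam (w.take j)) (hi lam (w.take j)),
          x j t = (run lam (w.take j) (2, t)).2) ∧
        (∀ j, ∀ hj : j < w.length, ∀ t ∈ Icc (lo lam (w.take (j + 1))) (hi lam (w.take (j + 1))),
          deriv (x (j + 1)) t ≤ Kc * ((w[j]'hj).m : ℝ) ^ 3 * deriv (x j) t))
    {a : ℕ → ℕ} (ha : ∀ k, 1 ≤ a k) {b : Bool} {w : List Sym} {σ : Sym} {s : St}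
    (h : Adm a (rootSt b) (w ++ [σ]) s) : hi lam w - lo lam w ≤
      Kc * (σ.m : ℝ) ^ 3 * Real.exp (4 * Kc) * (hi lam (w ++ [σ]) - lo lam (w ++ [σ])) := by
  obtain ⟨x, H, _, hs⟩ := hch a ha b _ s h
  have hlt : w.length < (w ++ [σ]).length := by simp
  have h2 := hs w.length hlt
  have e1 : (w ++ [σ])[w.length]'hlt = σ := by simp
  rw [e1] at h2
  have h1 := chain_low H hKc hlt (Nat.cast_nonneg σ.m) h2
  have e2 : (w ++ [σ]).take w.length = w := by simp
  have e3 : (w ++ [σ]).take (w.length + 1) = w ++ [σ] := by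
    rw [List.take_of_length_le]; simp
  simp only [e2, e3] at h1
  exact h1

theorem ineq (hPath : T_PATH) (hChain : T_CHAIN) (hComp : T_COMP) (hSum : T_SUM) (hPre : T_PRE)
    (hDisj : T_DISJ) (hTr : T_TRANSFER) (hCpt : T_CPT) (hV : T_ADMV) (hB : T_BAND) :
    T_INEQ := by
  intro lam hl a ha ⟨G, hG⟩
  set a2 := shift2 a with ha2def
  have ha2 : ∀ k, 1 ≤ a2 k := fun k => ha (k + 2)
  have hG1 : 1 ≤ G := by
    have h1 := hG 0
    have h2 : (1 : ℝ) ≤ a 0 := by exact_mod_cast ha 0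
    norm_num at h1
    linarith
  have hG2 : ∀ k, (a2 k : ℝ) ≤ 9 * G * ((k : ℝ) + 1) ^ 2 := by
    intro k
    have h1 := hG (k + 2)
    have h2 : ((((k + 2 : ℕ) : ℝ)) + 1) ^ 2 ≤ 9 * ((k : ℝ) + 1) ^ 2 := by
      push_cast
      have hk : (0 : ℝ) ≤ k := Nat.cast_nonneg k
      nlinarith
    calc (a2 k : ℝ) ≤ G * ((((k + 2 : ℕ) : ℝ)) + 1) ^ 2 := h1
      _ ≤ G * (9 * ((k : ℝ) + 1) ^ 2) := mul_le_mul_of_nonneg_left h2 (by linarith)
      _ = _ := by ring
  obtain ⟨M, hM⟩ := hSum (9 * G)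
  obtain ⟨Kc, hKc, hch⟩ := hChain lam hl
  obtain ⟨Kp, hKp⟩ := hComp lam hl M
  have hlen : ∀ b, 0 < hi lam (pre a b) - lo lam (pre a b) := by
    intro b
    have := (hB lam hl (pre a b) (hV a ha true _ _ (hPre a ha b).1).1).2.1
    linarith
  set δ := min (hi lam (pre a false) - lo lam (pre a false))
    (hi lam (pre a true) - lo lam (pre a true)) with hδ
  have hδ0 : 0 < δ := lt_min (hlen false) (hlen true)
  have hδb : ∀ b, δ ≤ hi lam (pre a b) - lo lam (pre a b) := by
    intro b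
    cases b
    · exact min_le_left _ _
    · exact min_le_right _ _
  -- constants
  set D1 := |Kp| / δ with hD1
  set Cm := 72 * G + 2 with hCm
  set D3 := Kc * Cm ^ 3 * Real.exp (4 * Kc) with hD3
  set Cc := 36 * G + 4 with hCc
  set D4 := (Cc + 1) ^ 2 with hD4
  have hD1' : 0 ≤ D1 := by positivity
  have hD3' : 0 ≤ D3 := by positivity
  have hD4' : 0 ≤ D4 := by positivity
  have hδ' : 0 ≤ 1 / δ := by positivity
  set K := 1 + 6 + D1 + 4 + D3 + D4 + 1 / δ with hK
  have hK1 : 1 ≤ K := by linarith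
  have hKc0 : 0 < Kc := by linarith
  set c := 1 - 1 / (Kc + 1) with hc
  have hc0 : 0 < c := by
    rw [hc, sub_pos, div_lt_one (by linarith)]; linarith
  have hc1 : c < 1 := by
    rw [hc]; have : 0 < 1 / (Kc + 1) := by positivity
    linarith
  have hcc : 1 - 1 / Kc ≤ c := by
    rw [hc]
    have : 1 / (Kc + 1) ≤ 1 / Kc := one_div_le_one_div_of_le hKc0 (by linarith)
    linarith
  have hc' : 0 ≤ 1 - 1 / Kc := by
    rw [sub_nonneg, div_le_one (by linarith)]; exact hKc
  -- the index type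
  let ι : Type := {i : Bool × List Sym × St // Adm a2 (rootSt i.1) i.2.1 i.2.2}
  have hadm : ∀ i : ι, Adm a (rootSt true) (pre a i.1.1 ++ i.1.2.1) i.1.2.2.shift := fun i =>
    (hPre a ha i.1.1).2 i.1.2.1 i.1.2.2 i.2
  have hbandlt : ∀ i : ι, lo lam (pre a i.1.1 ++ i.1.2.1) < hi lam (pre a i.1.1 ++ i.1.2.1) :=
    fun i => (hB lam hl _ (hV a ha true _ _ (hadm i)).1).2.1
  have hrpow : ∀ (n p : ℕ), p ≤ 6 → ((n : ℝ) + 1) ^ p ≤ ((n : ℝ) + 1) ^ K := by
    intro n p hp
    rw [← Real.rpow_natCast]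
    apply Real.rpow_le_rpow_of_exponent_le
    · have : (0 : ℝ) ≤ n := Nat.cast_nonneg n
      linarith
    · have : (p : ℝ) ≤ 6 := by exact_mod_cast hp
      linarith
  refine hTr (SpecSet lam a) (SpecSet lam a2) ι
    (fun i => Icc (lo lam (pre a i.1.1 ++ i.1.2.1) + lam) (hi lam (pre a i.1.1 ++ i.1.2.1) + lam))
    (fun i => Icc (lo lam i.1.2.1 + off lam i.1.1) (hi lam i.1.2.1 + off lam i.1.1))
    (fun i => Nat.pair (term a i.1.2.2.shift).1 (term a i.1.2.2.shift).2)
    K c (hCpt lam hl a ha).1 (hCpt lam hl a2 ha2).1 (hCpt lam hl a ha).2 hK1 hc0 hc1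
    ?_ ?_ ?_ ?_
  · intro i
    exact ⟨_, _, by have := hbandlt i; linarith, rfl⟩
  · intro i i' hne hcls
    rw [Set.disjoint_left]
    intro E hE hE'
    apply hne
    simp only [interior_Icc] at hE hE'
    have hterm : term a i.1.2.2.shift = term a i'.1.2.2.shift := by
      obtain ⟨h1, h2⟩ := Nat.pair_eq_pair.1 hcls
      exact Prod.ext h1 h2
    have hCdi : ∀ i : ι, Cd lam (pre a i.1.1 ++ i.1.2.1) =
        Ioo (lo lam (pre a i.1.1 ++ i.1.2.1)) (hi lam (pre a i.1.1 ++ i.1.2.1)) :=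
      fun i => (hB lam hl _ (hV a ha true _ _ (hadm i)).1).2.2.2.1
    have m1 : E - off lam true ∈ Cd lam (pre a i.1.1 ++ i.1.2.1) := by
      rw [hCdi, off_true]; exact ⟨by linarith [hE.1], by linarith [hE.2]⟩
    have m2 : E - off lam true ∈ Cd lam (pre a i'.1.1 ++ i'.1.2.1) := by
      rw [hCdi, off_true]; exact ⟨by linarith [hE'.1], by linarith [hE'.2]⟩
    obtain ⟨_, e2⟩ := hDisj lam hl a ha true true _ _ _ _ (hadm i) (hadm i') hterm E m1 m2
    obtain ⟨e3, e4⟩ := pre_inj e2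
    obtain ⟨⟨b, v, s⟩, hi1⟩ := i
    obtain ⟨⟨b', v', s'⟩, hi2⟩ := i'
    simp only at e3 e4 hi1 hi2 ⊢
    subst e3; subst e4
    have := hi1.det hi2
    subst this
    rfl
  · intro i
    refine ⟨Metric.isBounded_Icc _ _, ?_⟩
    have hv := (hB lam hl i.1.2.1 (hV a2 ha2 _ _ _ i.2).1).2.1
    rw [Real.diam_Icc (by linarith), Real.diam_Icc (by have := hbandlt i; linarith)]
    have h1 := hKp a2 a ha2 ha i.1.1 true (pre a i.1.1) i.1.2.1 i.1.2.2 i.1.2.2.shift i.2 (hadm i)
      (hM a2 ha2 hG2 i.1.1 i.1.2.1 i.1.2.2 i.2)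
    have h2 := hδb i.1.1
    have h3 := hbandlt i
    have h4 : Kp * ((hi lam (pre a i.1.1 ++ i.1.2.1) - lo lam (pre a i.1.1 ++ i.1.2.1)) /
        (hi lam (pre a i.1.1) - lo lam (pre a i.1.1))) ≤
        D1 * (hi lam (pre a i.1.1 ++ i.1.2.1) - lo lam (pre a i.1.1 ++ i.1.2.1)) := by
      rw [hD1, div_mul_eq_mul_div, ← mul_div_assoc]
      apply div_le_div₀ _ _ hδ0 h2
      · apply mul_nonneg (abs_nonneg _); linarith
      · apply mul_le_mul_of_nonneg_right (le_abs_self _); linarith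
    have h5 : D1 * (hi lam (pre a i.1.1 ++ i.1.2.1) - lo lam (pre a i.1.1 ++ i.1.2.1)) ≤
        K * (hi lam (pre a i.1.1 ++ i.1.2.1) - lo lam (pre a i.1.1 ++ i.1.2.1)) := by
      apply mul_le_mul_of_nonneg_right _ (by linarith)
      linarith
    linarith
  · intro y hy
    obtain ⟨b, ξ, σ, g0, g1, g2⟩ := (hPath lam hl a2 ha2).1 y hy
    have hA : ∀ n, Adm a2 (rootSt b) ((List.range n).map ξ) (σ n) := path_adm g0 g1
    have hA' : ∀ n, Adm a (rootSt true) (pre a b ++ (List.range n).map ξ) (σ n).shift :=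
      fun n => (hPre a ha b).2 _ _ (hA n)
    have hVW : ∀ n, VW (pre a b ++ (List.range n).map ξ) := fun n => (hV a ha true _ _ (hA' n)).1
    have hlt : ∀ n, lo lam (pre a b ++ (List.range n).map ξ) <
        hi lam (pre a b ++ (List.range n).map ξ) := fun n => (hB lam hl _ (hVW n)).2.1
    have happ : ∀ n, pre a b ++ (List.range (n + 1)).map ξ =
        (pre a b ++ (List.range n).map ξ) ++ [ξ n] := by
      intro n; rw [range_map_succ, List.append_assoc]
    obtain ⟨x0, hx0⟩ := nested_point (fun n => lo lam (pre a b ++ (List.range n).map ξ))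
      (fun n => hi lam (pre a b ++ (List.range n).map ξ)) (fun n => (hlt n).le) (by
        intro n
        have h1 := hVW (n + 1)
        rw [happ] at h1
        obtain ⟨h2, h3⟩ := VW_snoc.1 h1
        have := CB_snoc hB hl h2 h3
        rw [← happ] at this
        exact this)
    have hxA : x0 + lam ∈ SpecSet lam a := by
      refine path_conv hPath hB hV hl ha (b := true) (u := pre a b) (ξ := ξ)
        (S := fun n => (σ n).shift) hA' ?_
      intro n
      rw [off_true, add_sub_cancel_right]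
      exact hx0 n
    refine ⟨x0 + lam, fun n => ⟨(b, (List.range n).map ξ, σ n), hA n⟩, hxA, ?_, ?_⟩
    · simp only [List.range_zero, List.map_nil, List.append_nil]
      rw [Real.diam_Icc (by have := hlen b; linarith)]
      have h1 := hδb b
      have h2 : 1 / δ * δ = 1 := by field_simp
      have h3 : 1 / δ ≤ K := by linarith
      have h4 : K * δ ≤ K * (hi lam (pre a b) - lo lam (pre a b)) :=
        mul_le_mul_of_nonneg_left h1 (by linarith)
      have h5 : 1 / δ * δ ≤ K * δ := mul_le_mul_of_nonneg_right h3 hδ0.le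
      linarith
    · intro n
      have hn0 : (0 : ℝ) ≤ n := Nat.cast_nonneg n
      have hlevn := path_lev g0 g1 n
      have hlevR : (lev (σ n) : ℝ) ≤ 2 * n := by exact_mod_cast hlevn
      have hlev0 : (0 : ℝ) ≤ lev (σ n) := Nat.cast_nonneg _
      simp only
      refine ⟨?_, ?_, ?_, ?_, ?_⟩
      · exact ⟨by linarith [(hx0 n).1], by linarith [(hx0 n).2]⟩
      · have := g2 n
        exact ⟨by linarith [this.1], by linarith [this.2]⟩
      · rw [Real.diam_Icc (by have := hlt n; linarith)]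
        have h1 := band_upper hB hV hl hKc hch ha (hA' n)
        have h2 : (1 - 1 / Kc) ^ (pre a b ++ (List.range n).map ξ).length ≤ c ^ n := by
          calc (1 - 1 / Kc) ^ (pre a b ++ (List.range n).map ξ).length ≤ (1 - 1 / Kc) ^ n := by
                apply pow_le_pow_of_le_one hc' (by
                  have : 0 ≤ 1 / Kc := by positivity
                  linarith)
                simp
            _ ≤ c ^ n := pow_le_pow_left₀ hc' hcc n
        have h3 : 0 ≤ c ^ n := by positivity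
        have h4 : 4 * c ^ n ≤ K * c ^ n := mul_le_mul_of_nonneg_right (by linarith) h3
        linarith
      · rw [Real.diam_Icc (by have := hlt n; linarith),
          Real.diam_Icc (by have := hlt (n + 1); linarith)]
        have hA1 := hA' (n + 1)
        rw [happ] at hA1
        have h1 := band_lower hKc hch ha hA1
        rw [← happ] at h1
        have hm : ((ξ n).m : ℝ) ≤ Cm * ((n : ℝ) + 1) ^ 2 := by
          have h2 := step_m (g1 n)
          have h2' : ((ξ n).m : ℝ) ≤ a2 (lev (σ n)) + a2 (lev (σ n) + 1) + 2 := by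
            exact_mod_cast h2
          have h3 := hG2 (lev (σ n))
          have h4 := hG2 (lev (σ n) + 1)
          push_cast at h4
          have h5 : ((lev (σ n) : ℝ) + 1) ^ 2 ≤ 4 * ((n : ℝ) + 1) ^ 2 := by nlinarith
          have h6 : ((lev (σ n) : ℝ) + 1 + 1) ^ 2 ≤ 4 * ((n : ℝ) + 1) ^ 2 := by nlinarith
          have h7 : 9 * G * ((lev (σ n) : ℝ) + 1) ^ 2 ≤ 9 * G * (4 * ((n : ℝ) + 1) ^ 2) :=
            mul_le_mul_of_nonneg_left h5 (by linarith)
          have h8 : 9 * G * ((lev (σ n) : ℝ) + 1 + 1) ^ 2 ≤ 9 * G * (4 * ((n : ℝ) + 1) ^ 2) :=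
            mul_le_mul_of_nonneg_left h6 (by linarith)
          have h9 : (1 : ℝ) ≤ ((n : ℝ) + 1) ^ 2 := by nlinarith
          rw [hCm]
          nlinarith
        have hm3 : ((ξ n).m : ℝ) ^ 3 ≤ Cm ^ 3 * ((n : ℝ) + 1) ^ 6 := by
          calc ((ξ n).m : ℝ) ^ 3 ≤ (Cm * ((n : ℝ) + 1) ^ 2) ^ 3 :=
                pow_le_pow_left₀ (Nat.cast_nonneg _) hm 3
            _ = _ := by ring
        have hL : 0 ≤ hi lam (pre a b ++ (List.range (n + 1)).map ξ) -
            lo lam (pre a b ++ (List.range (n + 1)).map ξ) := by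
          have := hlt (n + 1); linarith
        have h10 : Kc * ((ξ n).m : ℝ) ^ 3 * Real.exp (4 * Kc) ≤ D3 * ((n : ℝ) + 1) ^ 6 := by
          calc Kc * ((ξ n).m : ℝ) ^ 3 * Real.exp (4 * Kc) ≤
                Kc * (Cm ^ 3 * ((n : ℝ) + 1) ^ 6) * Real.exp (4 * Kc) := by gcongr
            _ = _ := by rw [hD3]; ring
        have h11 : D3 * ((n : ℝ) + 1) ^ 6 ≤ K * ((n : ℝ) + 1) ^ K := by
          apply mul_le_mul (by linarith) (hrpow n 6 (le_refl _)) (by positivity) (by linarith)
        have h12 : Kc * ((ξ n).m : ℝ) ^ 3 * Real.exp (4 * Kc) *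
            (hi lam (pre a b ++ (List.range (n + 1)).map ξ) -
              lo lam (pre a b ++ (List.range (n + 1)).map ξ)) ≤
            K * ((n : ℝ) + 1) ^ K * (hi lam (pre a b ++ (List.range (n + 1)).map ξ) -
              lo lam (pre a b ++ (List.range (n + 1)).map ξ)) :=
          mul_le_mul_of_nonneg_right (h10.trans h11) hL
        have e1 : hi lam (pre a b ++ (List.range (n + 1)).map ξ) + lam -
            (lo lam (pre a b ++ (List.range (n + 1)).map ξ) + lam) =
            hi lam (pre a b ++ (List.range (n + 1)).map ξ) -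
              lo lam (pre a b ++ (List.range (n + 1)).map ξ) := by ring
        rw [e1]
        linarith
      · -- the class
        have hcb : ∀ x y : ℕ, (x : ℝ) ≤ Cc * ((n : ℝ) + 1) ^ 2 → (y : ℝ) ≤ Cc * ((n : ℝ) + 1) ^ 2 →
            (Nat.pair x y : ℝ) ≤ K * ((n : ℝ) + 1) ^ K := by
          intro x y hx hy
          have h1 : (Nat.pair x y : ℝ) ≤ ((max x y : ℕ) + 1 : ℝ) ^ 2 := by
            have := (Nat.pair_lt_max_add_one_sq x y).le
            exact_mod_cast this
          have h2 : ((max x y : ℕ) : ℝ) ≤ Cc * ((n : ℝ) + 1) ^ 2 := by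
            rw [Nat.cast_max]; exact max_le hx hy
          have h3 : (1 : ℝ) ≤ ((n : ℝ) + 1) ^ 2 := by nlinarith
          have h4 : ((max x y : ℕ) + 1 : ℝ) ≤ (Cc + 1) * ((n : ℝ) + 1) ^ 2 := by nlinarith
          calc (Nat.pair x y : ℝ) ≤ ((max x y : ℕ) + 1 : ℝ) ^ 2 := h1
            _ ≤ ((Cc + 1) * ((n : ℝ) + 1) ^ 2) ^ 2 := pow_le_pow_left₀ (by positivity) h4 2
            _ = D4 * ((n : ℝ) + 1) ^ 4 := by rw [hD4]; ring
            _ ≤ K * ((n : ℝ) + 1) ^ K := by
                apply mul_le_mul (by linarith) (hrpow n 4 (by norm_num)) (by positivity)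
                  (by linarith)
        have hidx := (hA n).idx ha2
        apply hcb
        · have : (term a (σ n).shift).1 ≤ lev (σ n) + 4 := by
            cases σ n with
            | plus k => simp [St.shift, term, lev]
            | minus k j => simp only [St.shift, term, lev]; split <;> simp
          have h1 : ((term a (σ n).shift).1 : ℝ) ≤ lev (σ n) + 4 := by exact_mod_cast this
          rw [hCc]
          nlinarith
        · have : ((term a (σ n).shift).2 : ℝ) ≤ a2 (lev (σ n)) := by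
            cases hσ : σ n with
            | plus k => simp [St.shift, term]
            | minus k j =>
              have := (hidx k j hσ).2
              simp only [St.shift, term, lev]
              split
              · simp
              · exact_mod_cast this
          have h3 := hG2 (lev (σ n))
          have h5 : ((lev (σ n) : ℝ) + 1) ^ 2 ≤ 4 * ((n : ℝ) + 1) ^ 2 := by nlinarith
          have h7 : 9 * G * ((lev (σ n) : ℝ) + 1) ^ 2 ≤ 9 * G * (4 * ((n : ℝ) + 1) ^ 2) :=
            mul_le_mul_of_nonneg_left h5 (by linarith)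
          rw [hCc]
          nlinarith

end H31.ST
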