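import Pool.Agent.H31.ST.Defs

/-!
# Targets for MP_0b97f5_mp (Sturmian spectral dimensions).  helper31.
Proof sketches: team store `H31_ST_blueprint.md`, table `st_modules`.
Each module proves one `T_*` statement; other `T_*` statements may be taken as hypotheses.
-/

open Set Filter Topology Matrix MeasureTheory

noncomputable section

namespace H31.ST

/-! ## A. the square -/

/-- TRIG -/
def T_TRIG : Prop := ∀ lam : ℝ, 0 < lam →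
  (2 < R lam) ∧
  (∀ y x : ℝ, |y| ≤ 2 → |x| ≤ 2 → 0 < S lam y x ∧ S lam y x ≤ 2 * R lam ∧ 2 * lam ≤ S lam y x) ∧
  (∀ x : ℝ, |x| < 2 → 0 < g lam x ∧ g lam x * R lam ≤ 1) ∧
  (∀ y x : ℝ, |y| ≤ 2 → |x| ≤ 2 → 0 < phi lam y x ∧ phi lam y x < Real.pi) ∧
  (theta (-2) = Real.pi ∧ theta 2 = 0) ∧
  (∀ y x : ℝ, |x| = 2 → phi lam y x = Real.pi / 2) ∧
  -- the phase formula
  (∀ y x : ℝ, |y| ≤ 2 → |x| < 2 → ∀ m : ℕ,
    T lam y x m * g lam x = Real.cos (m * theta x + phi lam y x)) ∧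
  -- the difference formula
  (∀ y x : ℝ, |y| ≤ 2 → |x| < 2 → ∀ m : ℕ,
    (T lam y x (m + 2) - T lam y x m) * g lam x =
      - (2 * Real.sin (theta x) * Real.sin ((m + 1 : ℕ) * theta x + phi lam y x))) ∧
  -- the surface
  (∀ y x : ℝ, |y| ≤ 2 → |x| ≤ 2 → ∀ m : ℕ,
    (T lam y x m) ^ 2 + (T lam y x (m + 1)) ^ 2 + x ^ 2 - x * T lam y x m * T lam y x (m + 1)
      = 4 + lam ^ 2) ∧
  -- the sheet is preserved
  (∀ s : Sym, s.Valid → ∀ y x : ℝ, InR1 lam s (y, x) →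
    zz lam x (X lam s y x) = (-1) ^ s.i * T lam (s.e * y) x (s.m + 1)) ∧
  -- the new trace at the ends of the phase interval
  (∀ s : Sym, s.Valid → ∀ y x : ℝ, |y| ≤ 2 → |x| < 2 →
    (Psi lam s y x = s.i * Real.pi → R lam ≤ X lam s y x) ∧
    (Psi lam s y x = (s.i + 1) * Real.pi → X lam s y x ≤ - R lam))

/-- CONT: continuity on the closed square -/
def T_CONT : Prop := ∀ lam : ℝ, 0 < lam →
  (∀ s : Sym, ContinuousOn (fun p : ℝ × ℝ => Psi lam s p.1 p.2) {p | |p.1| ≤ 2 ∧ |p.2| ≤ 2}) ∧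
  (∀ s : Sym, ContinuousOn (fun p : ℝ × ℝ => X lam s p.1 p.2) {p | |p.1| ≤ 2 ∧ |p.2| ≤ 2}) ∧
  -- `InR` is relatively open in the strip `|y| ≤ 2`
  (∀ w : List Sym, ∃ U : Set (ℝ × ℝ), IsOpen U ∧ {p | InR lam w p} = U ∩ {p | |p.1| ≤ 2}) ∧
  (∀ w : List Sym, ContinuousOn (run lam w) {p | InR lam w p})

/-- STRIP: the abstract crossing lemma.  `Ψ` goes down from above `q` to below `p`; in the strip
`p < Ψ < q` the function `f` is locally increasing where `|f| < 2`; `f ≥ r` where `Ψ = p`,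
`f ≤ -r` where `Ψ = q` -/
def T_STRIP : Prop := ∀ (r p q u v : ℝ) (Ψ f : ℝ → ℝ), 2 < r → p < q → u < v →
  ContinuousOn Ψ (Icc u v) → ContinuousOn f (Icc u v) → q < Ψ u → Ψ v < p →
  (∀ t ∈ Icc u v, Ψ t = p → r ≤ f t) → (∀ t ∈ Icc u v, Ψ t = q → f t ≤ -r) →
  (∀ t ∈ Ioo u v, p < Ψ t → Ψ t < q → |f t| < 2 → LocInc f t) →
  ∃ b u' v' e : ℝ, u < b ∧ b < u' ∧ u' < v' ∧ v' < e ∧ e < v ∧
    {t | t ∈ Icc u v ∧ p < Ψ t ∧ Ψ t < q ∧ |f t| < 2} = Ioo u' v' ∧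
    (∀ t ∈ Icc u' v', p < Ψ t ∧ Ψ t < q) ∧ f u' = -2 ∧ f v' = 2 ∧
    StrictMonoOn f (Icc u' v') ∧ f b ≤ -r ∧ r ≤ f e

/-- CURVE1: on a curve every valid symbol has exactly one band, with high peaks on both sides -/
def T_CURVE1 : Prop := ∀ lam : ℝ, 0 < lam → ∀ (c : ℝ → ℝ × ℝ) (u v : ℝ), Curve lam c u v →
  ∀ s : Sym, s.Valid → ∃ b u' v' e : ℝ, u < b ∧ b < u' ∧ u' < v' ∧ v' < e ∧ e < v ∧
    {t | t ∈ Icc u v ∧ InR1 lam s (c t)} = Ioo u' v' ∧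
    (∀ t ∈ Icc u' v', s.i * Real.pi < Psi lam s (c t).1 (c t).2 ∧
      Psi lam s (c t).1 (c t).2 < (s.i + 1) * Real.pi) ∧
    X lam s (c b).1 (c b).2 ≤ - R lam ∧ R lam ≤ X lam s (c e).1 (c e).2 ∧
    Curve lam (fun t => stepP lam s (c t)) u' v'

/-- CURVE: the same for words -/
def T_CURVE : Prop := ∀ lam : ℝ, 0 < lam → ∀ (c : ℝ → ℝ × ℝ) (u v : ℝ), Curve lam c u v →
  ∀ w : List Sym, VW w → ∃ u' v' : ℝ, u ≤ u' ∧ u' < v' ∧ v' ≤ v ∧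
    {t | t ∈ Icc u v ∧ InR lam w (c t)} = Ioo u' v' ∧
    Curve lam (fun t => run lam w (c t)) u' v'

/-! ## B. matrices -/

/-- POSMUL -/
def T_POSMUL : Prop := ∀ (A B : ℝ → Mat) (t dA dB : ℝ), (A t).det = 1 →
  (Pos A t dA → Pos B t dB → Pos (fun s => A s * B s) t (dA + dB)) ∧
  (SPos A t dA → Pos B t dB → SPos (fun s => A s * B s) t (dA + dB)) ∧
  (Pos A t dA → SPos B t dB → SPos (fun s => A s * B s) t (dA + dB))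

/-- TRDER: the trace of an elliptic, positively oriented matrix increases -/
def T_TRDER : Prop := ∀ (A : ℝ → Mat) (t d : ℝ), (A t).det = 1 → |(A t).trace| < 2 →
  0 < (A t) 1 0 →
  (Pos A t d → ∃ r, HasDerivAt (fun s => (A s).trace) r t ∧ d * Real.sqrt (4 - (A t).trace ^ 2) ≤ r) ∧
  (SPos A t d → ∃ r, HasDerivAt (fun s => (A s).trace) r t ∧ 0 < r ∧
    d * Real.sqrt (4 - (A t).trace ^ 2) ≤ r)

/-- FRAME: symbols act on framed pairs, compatibly with the traces -/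
def T_FRAME : Prop := ∀ lam : ℝ, 0 < lam → ∀ (P N : Mat), Framed lam P N → ∀ s : Sym, s.Valid →
  InR1 lam s (P.trace, (N * P).trace) →
  Framed lam (stepM s P N).1 (stepM s P N).2 ∧
  ((stepM s P N).1.trace, ((stepM s P N).2 * (stepM s P N).1).trace)
    = stepP lam s (P.trace, (N * P).trace)

/-- MATCURVE: a curve of framed matrices with `J`-positivity gives a `Curve` and the lower bound
for the derivatives of all traces -/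
def T_MATCURVE : Prop := ∀ lam : ℝ, 0 < lam → ∀ (P N : ℝ → Mat) (u v d e : ℝ), u < v →
  (∀ t ∈ Icc u v, |(P t).trace| ≤ 2) →
  ContinuousOn (fun t => ((P t).trace, (N t * P t).trace)) (Icc u v) →
  (N u * P u).trace = -2 → (N v * P v).trace = 2 →
  StrictMonoOn (fun t => (N t * P t).trace) (Icc u v) →
  (∀ t ∈ Ioo u v, Framed lam (P t) (N t)) →
  0 ≤ d → 0 ≤ e → (∀ t ∈ Ioo u v, Pos P t d) → (∀ t ∈ Ioo u v, SPos N t e) →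
  Curve lam (fun t => ((P t).trace, (N t * P t).trace)) u v

/-- MATDER: pointwise version of the lower bound, for a local matrix curve -/
def T_MATDER : Prop := ∀ lam : ℝ, 0 < lam → ∀ (P N : ℝ → Mat) (t d e : ℝ),
  (∀ᶠ s in 𝓝 t, Framed lam (P s) (N s) ∧ |(P s).trace| ≤ 2) →
  0 ≤ d → 0 ≤ e → Pos P t d → SPos N t e → ∀ w : List Sym, VW w →
  InR lam w ((P t).trace, (N t * P t).trace) →
  ∃ r, HasDerivAt (fun s => (run lam w ((P s).trace, (N s * P s).trace)).2) r t ∧ 0 < r ∧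
    (drun w (d, d + e)).2 *
      Real.sqrt (4 - (run lam w ((P t).trace, (N t * P t).trace)).2 ^ 2) ≤ r

/-- SLICE: the slices `y = const` are curves, with a lower bound for all derivatives -/
def T_SLICE : Prop := ∀ lam : ℝ, 0 < lam → ∀ y : ℝ, |y| ≤ 2 →
  Curve lam (fun x => (y, x)) (-2) 2 ∧
  ∀ w : List Sym, VW w → ∀ x ∈ Ioo (-2 : ℝ) 2, InR lam w (y, x) →
    ∃ r, HasDerivAt (fun x' => (run lam w (y, x')).2) r x ∧ 0 < r ∧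
      deg w * Real.sqrt (4 - (run lam w (y, x)).2 ^ 2) * Real.sqrt (4 - y ^ 2) ≤ S lam y x * r

/-- JAC: the area form `dy ∧ dx / S` is preserved up to sign -/
def T_JAC : Prop := ∀ lam : ℝ, 0 < lam → ∀ w : List Sym, VW w → ∀ p : ℝ × ℝ, |p.1| < 2 →
  InR lam w p → ∃ A₁ A₂ B₁ B₂ : ℝ,
    HasFDerivAt (run lam w)
      (ContinuousLinearMap.prod
        (A₁ • ContinuousLinearMap.fst ℝ ℝ ℝ + A₂ • ContinuousLinearMap.snd ℝ ℝ ℝ)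
        (B₁ • ContinuousLinearMap.fst ℝ ℝ ℝ + B₂ • ContinuousLinearMap.snd ℝ ℝ ℝ)) p ∧
    |A₁ * B₂ - A₂ * B₁| * S lam p.1 p.2 = S lam (run lam w p).1 (run lam w p).2

/-- CLOSE -/
def T_CLOSE : Prop := ∀ lam : ℝ, 0 < lam → ∀ w : List Sym, VW w → ∀ p p' : ℝ × ℝ,
  InR lam w p → InR lam w p' → (run lam w p).2 = (run lam w p').2 →
  |(run lam w p).1 - (run lam w p').1| * (deg w * Real.sqrt (4 - (run lam w p).2 ^ 2)) ≤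
    2 * Real.pi * R lam

/-! ## C. the energy curve -/

/-- COM: determinant and trace of the commutator -/
def T_COM : Prop := ∀ (lam : ℝ) (a : ℕ → ℕ) (E : ℝ) (n : ℕ),
  (Mm lam a E n).det = 1 ∧
  (xt lam a n E) ^ 2 + (xt lam a (n + 1) E) ^ 2 + ((Mm lam a E n * Mm lam a E (n + 1)).trace) ^ 2
    - xt lam a n E * xt lam a (n + 1) E * (Mm lam a E n * Mm lam a E (n + 1)).trace = 4 + lam ^ 2

/-- POLY -/
def T_POLY : Prop := ∀ (lam : ℝ) (a : ℕ → ℕ), (∀ k, 1 ≤ a k) → ∀ n, 1 ≤ n →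
  ∃ p : Polynomial ℝ, p.Monic ∧ p.natDegree = qd a n ∧ ∀ E, p.eval E = xt lam a n E

/-- EPOS: `J`-positivity along the energy curve -/
def T_EPOS : Prop := ∀ (lam : ℝ) (a : ℕ → ℕ), (∀ k, 1 ≤ a k) → ∀ (E : ℝ) (n : ℕ), 1 ≤ n →
  SPos (fun E => Mm lam a E n) E 0

/-- GAP: between two zeros of a trace polynomial there is a point of height at least `R` -/
def T_GAP : Prop := ∀ lam : ℝ, 0 < lam → ∀ a : ℕ → ℕ, (∀ k, 1 ≤ a k) → ∀ n, 1 ≤ n →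
  ∀ E₁ E₂ : ℝ, E₁ < E₂ → xt lam a n E₁ = 0 → xt lam a n E₂ = 0 →
  ∃ E ∈ Ioo E₁ E₂, R lam ≤ |xt lam a n E|

/-- ZEROS: all zeros are real and simple -/
def T_ZEROS : Prop := ∀ lam : ℝ, 0 < lam → ∀ a : ℕ → ℕ, (∀ k, 1 ≤ a k) → ∀ n, 1 ≤ n →
  ∃ r : Fin (qd a n) → ℝ, StrictMono r ∧ ∀ i, xt lam a n (r i) = 0

/-- LAG (abstract): a polynomial with real simple zeros and high peaks in between satisfies the
Laguerre inequality -/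
def T_LAG : Prop := ∀ (ρ : ℝ) (p : Polynomial ℝ), 0 < ρ → p.Monic → 1 ≤ p.natDegree →
  (∃ r : Fin p.natDegree → ℝ, StrictMono r ∧ ∀ i, p.eval (r i) = 0) →
  (∀ s t : ℝ, s < t → p.eval s = 0 → p.eval t = 0 → ∃ E ∈ Ioo s t, ρ ≤ |p.eval E|) →
  ∀ E : ℝ, |p.eval E| < ρ → p.derivative.eval E ≠ 0 ∧
    |p.derivative.derivative.eval E| * (ρ - |p.eval E|) ≤ (p.derivative.eval E) ^ 2

/-- TRACK: a coded band of the slice `y = 2` carries the traces of its state -/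
def T_TRACK : Prop := ∀ lam : ℝ, 0 < lam → ∀ a : ℕ → ℕ, (∀ k, 1 ≤ a k) →
  ∀ (b : Bool) (w : List Sym) (s : St), Adm a (rootSt b) w s →
  ∃ s₁ s₂ : ℝ, (s₁ = 1 ∨ s₁ = -1) ∧ (s₂ = 1 ∨ s₂ = -1) ∧ ∀ x : ℝ, InR lam w (2, x) →
    run lam w (2, x) = (s₁ * tP lam a s (x + off lam b), s₂ * tQ lam a s (x + off lam b)) ∧
    zz lam (run lam w (2, x)).1 (run lam w (2, x)).2 = s₁ * s₂ * tW lam a s (x + off lam b)

/-- ADMV: admissible words are valid words; degrees -/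
def T_ADMV : Prop := ∀ a : ℕ → ℕ, (∀ k, 1 ≤ a k) →
  ∀ (b : Bool) (w : List Sym) (s : St), Adm a (rootSt b) w s →
    VW w ∧ (dP a s : ℝ) = (drun w (0, 1)).1 ∧ (dQ a s : ℝ) = deg w

/-- COUNT -/
def T_COUNT : Prop := ∀ a : ℕ → ℕ, (∀ k, 1 ≤ a k) → ∀ n, 1 ≤ n →
  ∃ F : Finset (Bool × List Sym), F.card = qd a n ∧
    ∀ c ∈ F, ∃ s, Adm a (rootSt c.1) c.2 s ∧ IsTerm a s n

/-- BAND: structure of the coded bands on the slice `y = 2` -/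
def T_BAND : Prop := ∀ lam : ℝ, 0 < lam → ∀ w : List Sym, VW w →
  -2 ≤ lo lam w ∧ lo lam w < hi lam w ∧ hi lam w ≤ 2 ∧ Cd lam w = Ioo (lo lam w) (hi lam w) ∧
  ContinuousOn (fun x => run lam w (2, x)) (Icc (lo lam w) (hi lam w)) ∧
  StrictMonoOn (fun x => (run lam w (2, x)).2) (Icc (lo lam w) (hi lam w)) ∧
  (∀ x ∈ Icc (lo lam w) (hi lam w), |(run lam w (2, x)).1| ≤ 2) ∧
  (run lam w (2, lo lam w)).2 = -2 ∧ (run lam w (2, hi lam w)).2 = 2 ∧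
  ∀ s : Sym, s.Valid → ∃ b e : ℝ, lo lam w < b ∧ b < lo lam (w ++ [s]) ∧
    hi lam (w ++ [s]) < e ∧ e < hi lam w ∧
    X lam s (run lam w (2, b)).1 (run lam w (2, b)).2 ≤ - R lam ∧
    R lam ≤ X lam s (run lam w (2, e)).1 (run lam w (2, e)).2

/-- DISJ: bands with the same terminal word are disjoint -/
def T_DISJ : Prop := ∀ lam : ℝ, 0 < lam → ∀ a : ℕ → ℕ, (∀ k, 1 ≤ a k) →
  ∀ (b b' : Bool) (w w' : List Sym) (s s' : St), Adm a (rootSt b) w s →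
  Adm a (rootSt b') w' s' → term a s = term a s' →
  ∀ E : ℝ, E - off lam b ∈ Cd lam w → E - off lam b' ∈ Cd lam w' → b = b' ∧ w = w'

/-- COVER: every point with `|x_n| ≤ 2` lies in a closed coded band with terminal word `M n` -/
def T_COVER : Prop := ∀ lam : ℝ, 0 < lam → ∀ a : ℕ → ℕ, (∀ k, 1 ≤ a k) → ∀ n, 1 ≤ n →
  ∀ E : ℝ, |xt lam a n E| ≤ 2 → ∃ (b : Bool) (w : List Sym) (s : St),
    Adm a (rootSt b) w s ∧ IsTerm a s n ∧ E - off lam b ∈ Icc (lo lam w) (hi lam w)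

/-- ESC -/
def T_ESC : Prop := ∀ lam : ℝ, 0 < lam → ∀ a : ℕ → ℕ, (∀ k, 1 ≤ a k) → ∀ (n : ℕ) (E : ℝ),
  2 < |xt lam a n E| → 2 < |xt lam a (n + 1) E| → ∀ m, n ≤ m → 2 < |xt lam a m E|

/-- PATH: points of the spectrum are coded by infinite paths, and conversely -/
def T_PATH : Prop := ∀ lam : ℝ, 0 < lam → ∀ a : ℕ → ℕ, (∀ k, 1 ≤ a k) →
  (∀ E ∈ SpecSet lam a, ∃ (b : Bool) (ξ : ℕ → Sym) (σ : ℕ → St), σ 0 = rootSt b ∧
    (∀ n, Step a (σ n) (ξ n) (σ (n + 1))) ∧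
    ∀ n, E - off lam b ∈ Icc (lo lam ((List.range n).map ξ)) (hi lam ((List.range n).map ξ))) ∧
  (∀ (b : Bool) (ξ : ℕ → Sym) (σ : ℕ → St), σ 0 = rootSt b →
    (∀ n, Step a (σ n) (ξ n) (σ (n + 1))) → ∀ E : ℝ,
    (∀ n, E - off lam b ∈ Icc (lo lam ((List.range n).map ξ)) (hi lam ((List.range n).map ξ))) →
    E ∈ SpecSet lam a)

/-! ## D. distortion and comparison -/

/-- RATIO (abstract) -/
def T_RATIO : Prop := ∀ ρ : ℝ, 2 < ρ → ∃ K : ℝ, 1 ≤ K ∧ ∀ (f : ℝ → ℝ) (b u v e : ℝ),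
  b < u → u < v → v < e → ContDiff ℝ 2 f → f b ≤ -ρ → f u = -2 → f v = 2 → ρ ≤ f e →
  (∀ t ∈ Icc u v, 0 < deriv f t) →
  (∀ t ∈ Icc b e, |f t| < ρ → deriv f t ≠ 0 ∧
    |deriv (deriv f) t| * (ρ - |f t|) ≤ (deriv f t) ^ 2) →
  v - u ≤ (1 - 1 / K) * (e - b)

/-- CHAIN: the traces along a code form a chain, with polynomial lower bound for the ratios -/
def T_CHAIN : Prop := ∀ lam : ℝ, 0 < lam → ∃ K : ℝ, 1 ≤ K ∧ ∀ a : ℕ → ℕ, (∀ k, 1 ≤ a k) →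
  ∀ (b : Bool) (w : List Sym) (s : St), Adm a (rootSt b) w s →
  ∃ x : ℕ → ℝ → ℝ,
    IsChain K w.length x (fun j => lo lam (w.take j)) (fun j => hi lam (w.take j)) ∧
    (∀ j ≤ w.length, ∀ t ∈ Icc (lo lam (w.take j)) (hi lam (w.take j)),
      x j t = (run lam (w.take j) (2, t)).2) ∧
    (∀ j, ∀ hj : j < w.length, ∀ t ∈ Icc (lo lam (w.take (j + 1))) (hi lam (w.take (j + 1))),
      deriv (x (j + 1)) t ≤ K * ((w[j]'hj).m : ℝ) ^ 3 * deriv (x j) t)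

/-- TEL (abstract): comparison of two chains -/
def T_TEL : Prop := ∀ K : ℝ, 1 ≤ K → ∃ C : ℝ, ∀ (n : ℕ) (x x' : ℕ → ℝ → ℝ) (l h l' h' : ℕ → ℝ)
  (d m : ℕ → ℝ), IsChain K n x l h → IsChain K n x' l' h' → (∀ j, 1 ≤ d j) → (∀ j, 1 ≤ m j) →
  (∀ j < n, ∀ t ∈ Icc (l (j + 1)) (h (j + 1)), deriv (x (j + 1)) t ≤ K * m j ^ 3 * deriv (x j) t) →
  (∀ j < n, ∀ t ∈ Icc (l' (j + 1)) (h' (j + 1)),
    deriv (x' (j + 1)) t ≤ K * m j ^ 3 * deriv (x' j) t) →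
  (∀ j < n, ∀ t ∈ Ioo (l (j + 1)) (h (j + 1)), ∀ t' ∈ Ioo (l' (j + 1)) (h' (j + 1)),
    x (j + 1) t = x' (j + 1) t' →
    |x j t - x' j t'| * (d j * Real.sqrt (4 - x (j + 1) t ^ 2)) ≤ K) →
  (h n - l n) / (h 0 - l 0) ≤
    Real.exp (C * (1 + ∑ j ∈ Finset.range n, m j ^ 3 * d j ^ (-(1 / 3) : ℝ))) *
      ((h' n - l' n) / (h' 0 - l' 0))

/-- COMP: comparison of the bands of `v` and of `u ++ v` -/
def T_COMP : Prop := ∀ lam : ℝ, 0 < lam → ∀ M : ℝ, ∃ K : ℝ, ∀ (a a' : ℕ → ℕ),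
  (∀ k, 1 ≤ a k) → (∀ k, 1 ≤ a' k) → ∀ (b b' : Bool) (u v : List Sym) (s s' : St),
  Adm a (rootSt b) v s → Adm a' (rootSt b') (u ++ v) s' →
  ∑ j ∈ Finset.range v.length,
    (((v[j]?.getD ⟨true, 2, 1⟩).m : ℝ)) ^ 3 * (deg (v.take (j + 1))) ^ (-(1 / 3) : ℝ) ≤ M →
  hi lam v - lo lam v ≤
    K * ((hi lam (u ++ v) - lo lam (u ++ v)) / (hi lam u - lo lam u))

/-- SUM -/
def T_SUM : Prop := ∀ G : ℝ, ∃ M : ℝ, ∀ a : ℕ → ℕ, (∀ k, 1 ≤ a k) →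
  (∀ k, (a k : ℝ) ≤ G * ((k : ℝ) + 1) ^ 2) →
  ∀ (b : Bool) (v : List Sym) (s : St), Adm a (rootSt b) v s →
  ∑ j ∈ Finset.range v.length,
    (((v[j]?.getD ⟨true, 2, 1⟩).m : ℝ)) ^ 3 * (deg (v.take (j + 1))) ^ (-(1 / 3) : ℝ) ≤ M

/-- PRE: the prefixes -/
def T_PRE : Prop := ∀ a : ℕ → ℕ, (∀ k, 1 ≤ a k) → ∀ b : Bool,
  Adm a (rootSt true) (pre a b) (rootSt b).shift ∧
  ∀ (v : List Sym) (s : St), Adm (shift2 a) (rootSt b) v s →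
    Adm a (rootSt true) (pre a b ++ v) s.shift

/-! ## E. dimensions -/

/-- UBD: characterisation of the upper box dimension -/
def T_UBD : Prop := ∀ K : Set ℝ, IsCompact K → K.Nonempty → ∀ s : ℝ,
  (ubd K ≤ s ↔ ∀ s' > s, ∃ C : ℝ, ∀ ε ∈ Ioo (0 : ℝ) 1,
    ((Metric.externalCoveringNumber (Real.toNNReal ε) K).toNat : ℝ) ≤ C * ε ^ (-s'))

/-- TRANSFER (abstract): `I i` source intervals, `J i` target sets, `cls i` class -/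
def T_TRANSFER : Prop := ∀ (A B : Set ℝ) (ι : Type) (I J : ι → Set ℝ) (cls : ι → ℕ)
  (K c : ℝ), IsCompact A → IsCompact B → A.Nonempty → 1 ≤ K → 0 < c → c < 1 →
  (∀ i, ∃ p q : ℝ, p < q ∧ I i = Icc p q) →
  (∀ i i', i ≠ i' → cls i = cls i' → Disjoint (interior (I i)) (interior (I i'))) →
  (∀ i, Bornology.IsBounded (J i) ∧ Metric.diam (J i) ≤ K * Metric.diam (I i)) →
  (∀ y ∈ B, ∃ (x : ℝ) (i : ℕ → ι), x ∈ A ∧ 1 ≤ K * Metric.diam (I (i 0)) ∧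
    ∀ n : ℕ, x ∈ I (i n) ∧ y ∈ J (i n) ∧
    Metric.diam (I (i n)) ≤ K * c ^ n ∧
    Metric.diam (I (i n)) ≤ K * ((n : ℝ) + 1) ^ K * Metric.diam (I (i (n + 1))) ∧
    (cls (i n) : ℝ) ≤ K * ((n : ℝ) + 1) ^ K) →
  dimH B ≤ dimH A ∧ ubd B ≤ ubd A

/-- CPT -/
def T_CPT : Prop := ∀ lam : ℝ, 0 < lam → ∀ a : ℕ → ℕ, (∀ k, 1 ≤ a k) →
  IsCompact (SpecSet lam a) ∧ (SpecSet lam a).Nonempty

/-- INEQ -/
def T_INEQ : Prop := ∀ lam : ℝ, 0 < lam → ∀ a : ℕ → ℕ, (∀ k, 1 ≤ a k) →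
  (∃ G : ℝ, ∀ k, (a k : ℝ) ≤ G * ((k : ℝ) + 1) ^ 2) →
  dimH (SpecSet lam (shift2 a)) ≤ dimH (SpecSet lam a) ∧
  ubd (SpecSet lam (shift2 a)) ≤ ubd (SpecSet lam a)

/-! ## F. measure -/

/-- DIG: elementary facts on the digits -/
def T_DIG : Prop := Measurable dig ∧ Measurable gauss ∧
  ∀ α ∈ Ioo (0 : ℝ) 1, Irrational α →
    gauss α ∈ Ioo (0 : ℝ) 1 ∧ Irrational (gauss α) ∧ (∀ k, 1 ≤ dig α k) ∧
    dig (gauss (gauss α)) = shift2 (dig α)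

/-- GROWTH -/
def T_GROWTH : Prop := ∀ᵐ α ∂(volume.restrict (Ioo (0 : ℝ) 1)),
  ∃ G : ℝ, ∀ k, (dig α k : ℝ) ≤ G * ((k : ℝ) + 1) ^ 2

/-- ZERO1 -/
def T_ZERO1 : Prop := ∀ A : Set ℝ, A ⊆ Ioo 0 1 → MeasurableSet A →
  (∀ α ∈ Ioo (0 : ℝ) 1, Irrational α → gauss (gauss α) ∈ A → α ∈ A) →
  volume A = 0 ∨ volume (Ioo (0 : ℝ) 1 \ A) = 0

/-- MEASD: measurability of the two dimension functions of the digits -/
def T_MEASD : Prop := ∀ lam : ℝ, 0 < lam →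
  (∀ t : ENNReal, MeasurableSet {a : ℕ → ℕ | (∀ k, 1 ≤ a k) ∧ t ≤ dimH (SpecSet lam a)}) ∧
  (∀ t : EReal, MeasurableSet {a : ℕ → ℕ | (∀ k, 1 ≤ a k) ∧ t ≤ ubd (SpecSet lam a)})

/-! ## G. the spectral theorem -/

/-- transfer matrices over `[0, n)` -/
def Tr (v : ℤ → ℝ) (E : ℝ) : ℕ → Mat
  | 0 => 1
  | (n + 1) => !![E - v n, -1; 1, 0] * Tr v E n

/-- numerators of the convergents: `pd 0 = p_{-1} = 1`, `pd 1 = p_0 = 0` -/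
def pd (a : ℕ → ℕ) : ℕ → ℕ
  | 0 => 1
  | 1 => 0
  | (n + 2) => a n * pd a (n + 1) + pd a n

/-- the periodic potential of slope `p/q` (floor division) -/
def pper (lam : ℝ) (p q : ℕ) (j : ℤ) : ℝ := lam * (((j + 1) * p / q - j * p / q : ℤ) : ℝ)

/-- CHRIS: traces of the Christoffel words -/
def T_CHRIS : Prop := ∀ (lam : ℝ) (a : ℕ → ℕ), (∀ k, 1 ≤ a k) → ∀ (E : ℝ) (n : ℕ), 1 ≤ n →
  xt lam a n E = (Tr (pper lam (pd a n) (qd a n)) E (qd a n)).trace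

/-- CONV: convergents of an irrational number -/
def T_CONV : Prop := ∀ α ∈ Ioo (0 : ℝ) 1, Irrational α → ∀ n, 1 ≤ n →
  0 < qd (dig α) n ∧ Nat.Coprime (pd (dig α) n) (qd (dig α) n) ∧
  |α * qd (dig α) n - pd (dig α) n| < 1 / qd (dig α) (n + 1) ∧
  qd (dig α) n ≤ qd (dig α) (n + 1) ∧ n ≤ qd (dig α) (n + 1)

/-- WIN2: somewhere there are two periods of the periodic approximant -/
def T_WIN2 : Prop := ∀ (lam α ω : ℝ), α ∈ Ioo (0 : ℝ) 1 → Irrational α →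
  ∀ (p q : ℕ), 0 < q → Nat.Coprime p q → |α * q - p| * q < 1 →
  ∃ k j₀ : ℤ, ∀ j : ℤ, j₀ ≤ j → j < j₀ + (2 * q - 1) → pot lam α ω (k + j) = pper lam p q j

/-- WIN1: every window appears in the approximants -/
def T_WIN1 : Prop := ∀ (lam α ω : ℝ), α ∈ Ioo (0 : ℝ) 1 → Irrational α → ∀ L : ℕ,
  ∃ δ > 0, ∀ (p q : ℕ), 0 < q → Nat.Coprime p q → |α - p / q| < δ → 1 / δ < q →
  ∃ k : ℤ, ∀ j : ℤ, |j| ≤ L → pot lam α ω j = pper lam p q (j + k)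

/-- CYC: lower bound on a cycle -/
def T_CYC : Prop := ∀ (v : ℤ → ℝ) (q : ℕ) (E r : ℝ), 3 ≤ q → (∀ j, v (j + q) = v j) →
  (∀ E', |E' - E| < r → (Tr v E' q).trace ≠ 2) → 0 < r →
  ∀ ψ : ℤ → ℂ, (∀ j, ψ (j + q) = ψ j) →
    r ^ 2 * ∑ j ∈ Finset.range q, ‖ψ j‖ ^ 2 ≤
      ∑ j ∈ Finset.range q, ‖ψ (j + 1) + ψ (j - 1) + (v j - E : ℂ) * ψ j‖ ^ 2

/-- BLOCH -/
def T_BLOCH : Prop := ∀ (v : ℤ → ℝ) (q : ℕ) (E : ℝ), 1 ≤ q → (∀ j, v (j + q) = v j) →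
  |(Tr v E q).trace| ≤ 2 → ∃ u : ℤ → ℂ, (∃ j, u j ≠ 0) ∧
    (∀ j, u (j + 1) + u (j - 1) + (v j : ℂ) * u j = E * u j) ∧ ∀ j, ‖u (j + q)‖ = ‖u j‖

/-- OPER: existence, uniqueness, norm bound and self-adjointness of the operator -/
def T_OPER : Prop := ∀ (v : ℤ → ℝ), (∃ C, ∀ n, |v n| ≤ C) →
  ∃ H : L2Z →L[ℂ] L2Z, IsSchr v H ∧ IsSelfAdjoint H ∧ ∀ H', IsSchr v H' → H' = H

/-- SPEC1 -/
def T_SPEC1 : Prop := ∀ lam : ℝ, 0 < lam → ∀ α ∈ Ioo (0 : ℝ) 1, Irrational α → ∀ ω : ℝ,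
  ∀ H : L2Z →L[ℂ] L2Z, IsSchr (pot lam α ω) H → ∀ E : ℝ, E ∉ SpecSet lam (dig α) →
  (E : ℂ) ∉ spectrum ℂ H

/-- SPEC2 -/
def T_SPEC2 : Prop := ∀ lam : ℝ, 0 < lam → ∀ α ∈ Ioo (0 : ℝ) 1, Irrational α → ∀ ω : ℝ,
  ∀ H : L2Z →L[ℂ] L2Z, IsSchr (pot lam α ω) H → ∀ E : ℝ, E ∈ SpecSet lam (dig α) →
  (E : ℂ) ∈ spectrum ℂ H

/-- FINAL -/
def T_FINAL : Prop := ∀ lam : ℝ, 0 < lam → ∃ (cH : ENNReal) (cB : EReal),
  ∀ᵐ α ∂(volume.restrict (Ioo (0 : ℝ) 1)), ∀ ω : ℝ, ∀ H : L2Z →L[ℂ] L2Z,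
    IsSchr (pot lam α ω) H →
    dimH {E : ℝ | (E : ℂ) ∈ spectrum ℂ H} = cH ∧ ubd {E : ℝ | (E : ℂ) ∈ spectrum ℂ H} = cB

end H31.ST
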