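import Pool.Agent.H31.ST.Operator
import Pool.Agent.H31.ST.Targets

/-! Link between the statement of the hand-in and T_FINAL.  helper31 -/

open Set Filter Topology MeasureTheory

noncomputable section

namespace H31.ST

open Pool.Agent.H31.Sturm in
theorem pot_eq (lam α ω : ℝ) : pot lam α ω = potential lam α ω := by
  funext n
  unfold pot potential
  have h := Int.fract_lt_one (n * α + ω)
  by_cases h1 : 1 - α ≤ Int.fract (n * α + ω)
  · rw [if_pos h1, if_pos ⟨h1, h⟩]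
  · rw [if_neg h1, if_neg (fun h2 => h1 h2.1)]

open Pool.Agent.H31.Sturm in
theorem isSchr_hamiltonian (lam α ω : ℝ) : IsSchr (pot lam α ω) (hamOp lam α ω) := by
  rw [pot_eq]
  intro ψ n
  exact hamOp_apply lam α ω ψ n

open Pool.Agent.H31.Sturm in
theorem link (h : T_FINAL) : ∀ lam : ℝ, 0 < lam →
    (∃ c : ENNReal, ∀ᵐ α ∂(volume.restrict (Ioo (0 : ℝ) 1)), ∀ ω ∈ Ico (0 : ℝ) 1,
      dimH (spec lam α ω) = c) ∧
    (∃ c : EReal, ∀ᵐ α ∂(volume.restrict (Ioo (0 : ℝ) 1)), ∀ ω ∈ Ico (0 : ℝ) 1,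
      upperBoxDim (spec lam α ω) = c) := by
  intro lam hl
  obtain ⟨cH, cB, h1⟩ := h lam hl
  refine ⟨⟨cH, ?_⟩, ⟨cB, ?_⟩⟩
  · filter_upwards [h1] with α h2 ω _
    rw [spec_eq]
    exact (h2 ω (hamOp lam α ω) (isSchr_hamiltonian lam α ω)).1
  · filter_upwards [h1] with α h2 ω _
    rw [spec_eq]
    exact (h2 ω (hamOp lam α ω) (isSchr_hamiltonian lam α ω)).2

end H31.ST
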