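import Pool.Agent.H31.ST.Closure

/-! TRACK.  helper31 -/

open Set Filter Topology Matrix

noncomputable section

namespace H31.ST

/-- Cayley-Hamilton for the trace of `A * Q^(m+2)` -/
theorem tr_rec (A Q : Mat) (hQ : Q.det = 1) (m : ℕ) :
    (A * Q ^ (m + 2)).trace = Q.trace * (A * Q ^ (m + 1)).trace - (A * Q ^ m).trace := by
  have e1 : A * Q ^ (m + 2) = (A * Q ^ m) * (Q * Q) := by rw [pow_add, sq, mul_assoc]
  have e2 : A * Q ^ (m + 1) = (A * Q ^ m) * Q := by rw [pow_succ, mul_assoc]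
  rw [e1, e2]
  set C := A * Q ^ m
  rw [Matrix.det_fin_two] at hQ
  simp only [Matrix.trace_fin_two, Matrix.mul_apply, Fin.sum_univ_two]
  linear_combination (-(C 0 0) - C 1 1) * hQ

/-- the sequence of traces attached to a state -/
def tau (lam : ℝ) (a : ℕ → ℕ) (s : St) (E : ℝ) : ℕ → ℝ :=
  match s with
  | St.plus k => fun m => (Mm lam a E k * (Mm lam a E (k + 1)) ^ m).trace
  | St.minus k j => fun m => match m with
    | 0 => (Mm lam a E k * (Mm lam a E (k + 1)) ^ (j - 1)).trace
    | (m + 1) => (Mm lam a E (k + 1) *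
        (Mm lam a E (k + 1) * (Mm lam a E k * (Mm lam a E (k + 1)) ^ (j - 1))) ^ m).trace

theorem tau_rec (lam : ℝ) (a : ℕ → ℕ) (s : St) (hs : ∀ k j, s = St.minus k j → 1 ≤ j) (E : ℝ)
    (m : ℕ) :
    tau lam a s E (m + 2) = tQ lam a s E * tau lam a s E (m + 1) - tau lam a s E m := by
  cases s with
  | plus k => exact tr_rec _ _ (Mm_det lam a E (k + 1)) m
  | minus k j =>
    have hj := hs k j rfl
    set B := Mm lam a E (k + 1) with hB
    set P := Mm lam a E k * B ^ (j - 1) with hP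
    have hBd : B.det = 1 := Mm_det lam a E (k + 1)
    have hPd : P.det = 1 := by
      rw [hP, Matrix.det_mul, Matrix.det_pow, hBd, Mm_det lam a E k]; simp
    have hQ : tQ lam a (St.minus k j) E = (B * P).trace := by
      simp only [tQ]
      rw [Matrix.trace_mul_comm B P, hP, mul_assoc, ← pow_succ, Nat.sub_add_cancel hj]
    have hBP : (B * P).det = 1 := by rw [Matrix.det_mul, hBd, hPd, mul_one]
    rw [hQ]
    match m with
    | 0 =>
      show (B * (B * P) ^ 1).trace = (B * P).trace * (B * (B * P) ^ 0).trace - P.trace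
      rw [pow_one, pow_zero, mul_one]
      rw [Matrix.det_fin_two] at hBd
      simp only [Matrix.trace_fin_two, Matrix.mul_apply, Fin.sum_univ_two]
      linear_combination (-(P 0 0) - P 1 1) * hBd
    | (m + 1) => exact tr_rec B (B * P) hBP m

theorem tau_zero (lam : ℝ) (a : ℕ → ℕ) (s : St) (E : ℝ) :
    tau lam a s E 0 = tP lam a s E := by
  cases s with
  | plus k => simp [tau, tP]
  | minus k j => rfl

/-- the sign of a state -/
def sgn : St → ℝ
  | St.plus _ => 1
  | St.minus _ _ => -1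

theorem T_eq (lam : ℝ) (a : ℕ → ℕ) (s : St) (hs : ∀ k j, s = St.minus k j → 1 ≤ j) (E : ℝ)
    (y x s₁ s₂ : ℝ) (h2 : s₂ ^ 2 = 1)
    (hy : y = s₁ * tP lam a s E) (hx : x = s₂ * tQ lam a s E)
    (hz : zz lam y x = s₁ * s₂ * tW lam a s E) (m : ℕ) :
    T lam (sgn s * y) x m = sgn s * s₁ * s₂ ^ m * tau lam a s E m := by
  have hsg : sgn s ^ 2 = 1 := by cases s <;> simp [sgn]
  have key : ∀ m, T lam (sgn s * y) x m = sgn s * s₁ * s₂ ^ m * tau lam a s E m ∧
      T lam (sgn s * y) x (m + 1) = sgn s * s₁ * s₂ ^ (m + 1) * tau lam a s E (m + 1) := by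
    intro m
    induction m with
    | zero =>
      refine ⟨?_, ?_⟩
      · simp only [T, pow_zero, tau_zero, hy]; ring
      · simp only [T, zero_add, pow_one]
        have hS : S lam (sgn s * y) x = S lam y x := by
          unfold S; rw [mul_pow, hsg, one_mul]
        have e1 : zz lam (sgn s * y) x = zz lam y x - x * y / 2 + x * (sgn s * y) / 2 := by
          unfold zz; rw [hS]; ring
        rw [e1, hz]
        cases s with
        | plus k =>
          simp only [sgn, tW, tau, pow_one]; ring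
        | minus k j =>
          simp only [sgn, tW, tau, pow_zero, mul_one]
          rw [hx, hy]; ring
    | succ m ih =>
      refine ⟨ih.2, ?_⟩
      show x * T lam (sgn s * y) x (m + 1) - T lam (sgn s * y) x m = _
      rw [ih.1, ih.2, tau_rec lam a s hs E m, hx]
      have : s₂ ^ (m + 1 + 1) = s₂ ^ m := by
        rw [show m + 1 + 1 = m + 2 by ring, pow_add, h2, mul_one]
      rw [this]
      linear_combination (sgn s * s₁ * s₂ ^ m * tQ lam a s E * tau lam a s E (m + 1)) * h2
  exact (key m).1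

theorem tr_cyc (B P : Mat) (n : ℕ) : (B * (B * P) ^ n).trace = (B * (P * B) ^ n).trace := by
  have h : ∀ n : ℕ, B * (P * B) ^ n = (B * P) ^ n * B := by
    intro n
    induction n with
    | zero => simp
    | succ n ih =>
      rw [pow_succ, ← mul_assoc, ih, pow_succ]
      simp only [mul_assoc]
  rw [h n, Matrix.trace_mul_comm]

/-- traces of the next state -/
theorem tau_next {a : ℕ → ℕ} (ha : ∀ k, 1 ≤ a k) {t s : St} {σ : Sym} (h : Step a t σ s)
    (ht : ∀ k j, t = St.minus k j → 1 ≤ j) (lam E : ℝ) :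
    tP lam a s E = tQ lam a t E ∧ tau lam a t E σ.m = tQ lam a s E ∧
    tau lam a t E (σ.m + 1) = tW lam a s E ∧ σ.e = sgn t := by
  cases h with
  | pp k i h1 h2 =>
    refine ⟨rfl, ?_, ?_, rfl⟩
    · simp only [tau, tQ, Mm]
    · simp only [tau, tW, Mm]
      rw [← mul_assoc, Matrix.trace_mul_comm (Mm lam a E (k + 1) * Mm lam a E k), ← mul_assoc,
        ← pow_succ, Matrix.trace_mul_comm]
  | pm k i h1 h2 =>
    have e1 : tau lam a (St.plus k) E (a k + 1) = tQ lam a (St.minus (k + 1) 1) E := by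
      simp only [tau, tQ, Mm, pow_one]
      rw [← mul_assoc, Matrix.trace_mul_comm (Mm lam a E (k + 1) * Mm lam a E k), ← mul_assoc,
        ← pow_succ, Matrix.trace_mul_comm]
    refine ⟨?_, e1, ?_, rfl⟩
    · simp only [tP, tQ, Nat.sub_self, pow_zero, mul_one]
    · have := tau_rec lam a (St.plus k) (by simp) E (a k)
      show tau lam a (St.plus k) E (a k + 1 + 1) = _
      rw [this, e1]
      simp only [tW, tP, tQ, Nat.sub_self, pow_zero, mul_one, tau, Mm]
  | mm k j h1 h2 =>
    have e1 : tau lam a (St.minus k j) E 2 = tQ lam a (St.minus k (j + 1)) E := by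
      simp only [tau, tQ, pow_one]
      rw [← mul_assoc, Matrix.trace_mul_comm, mul_assoc, ← mul_assoc, ← mul_assoc]
      congr 1
      rw [mul_assoc (Mm lam a E k), mul_assoc (Mm lam a E k), ← pow_succ, ← pow_succ]
      congr 2
      omega
    have e0 : tP lam a (St.minus k (j + 1)) E = tQ lam a (St.minus k j) E := by
      simp only [tP, tQ, Nat.add_sub_cancel]
    refine ⟨e0, e1, ?_, rfl⟩
    have := tau_rec lam a (St.minus k j) ht E 1
    show tau lam a (St.minus k j) E (1 + 2) = _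
    rw [this]
    show tQ lam a (St.minus k j) E * tau lam a (St.minus k j) E 2 - _ = _
    rw [e1]
    simp only [tW, e0, tau, pow_zero, mul_one]
  | mp k i h1 h2 =>
    have hPB : Mm lam a E k * Mm lam a E (k + 1) ^ (a k - 1) * Mm lam a E (k + 1)
        = Mm lam a E (k + 2) := by
      simp only [Mm]
      rw [mul_assoc, ← pow_succ, Nat.sub_add_cancel (ha k)]
    refine ⟨?_, ?_, ?_, rfl⟩
    · simp only [tP, tQ, Mm]
    · show (Mm lam a E (k + 1) *
        (Mm lam a E (k + 1) * (Mm lam a E k * (Mm lam a E (k + 1)) ^ (a k - 1))) ^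
          (a (k + 1))).trace = _
      rw [tr_cyc, hPB]
      simp only [tQ]
      rfl
    · show (Mm lam a E (k + 1) *
        (Mm lam a E (k + 1) * (Mm lam a E k * (Mm lam a E (k + 1)) ^ (a k - 1))) ^
          (a (k + 1) + 1)).trace = _
      rw [tr_cyc, hPB]
      simp only [tW]
      rw [show Mm lam a E (k + 2 + 1) = Mm lam a E (k + 1) * Mm lam a E (k + 2) ^ (a (k + 1))
        from rfl]
      rw [Matrix.trace_mul_comm (Mm lam a E (k + 2)), mul_assoc, ← pow_succ]
  | mn k i h1 h2 =>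
    have hPB : Mm lam a E k * Mm lam a E (k + 1) ^ (a k - 1) * Mm lam a E (k + 1)
        = Mm lam a E (k + 2) := by
      simp only [Mm]
      rw [mul_assoc, ← pow_succ, Nat.sub_add_cancel (ha k)]
    have e1 : tau lam a (St.minus k (a k)) E (a (k + 1) + 2) =
        tQ lam a (St.minus (k + 2) 1) E := by
      show (Mm lam a E (k + 1) *
        (Mm lam a E (k + 1) * (Mm lam a E k * (Mm lam a E (k + 1)) ^ (a k - 1))) ^
          (a (k + 1) + 1)).trace = _
      rw [tr_cyc, hPB]
      simp only [tQ, pow_one]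
      rw [show Mm lam a E (k + 2 + 1) = Mm lam a E (k + 1) * Mm lam a E (k + 2) ^ (a (k + 1))
        from rfl]
      rw [Matrix.trace_mul_comm (Mm lam a E (k + 2)), mul_assoc, ← pow_succ]
    have e0 : tP lam a (St.minus (k + 2) 1) E = tQ lam a (St.minus k (a k)) E := by
      simp only [tP, tQ, Nat.sub_self, pow_zero, mul_one, Mm]
    refine ⟨e0, e1, ?_, rfl⟩
    have := tau_rec lam a (St.minus k (a k)) ht E (a (k + 1) + 1)
    show tau lam a (St.minus k (a k)) E (a (k + 1) + 1 + 2) = _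
    rw [this]
    show tQ lam a (St.minus k (a k)) E * tau lam a (St.minus k (a k)) E (a (k + 1) + 2) - _ = _
    rw [e1, ← e0]
    simp only [tW]
    congr 1
    show (Mm lam a E (k + 1) *
        (Mm lam a E (k + 1) * (Mm lam a E k * (Mm lam a E (k + 1)) ^ (a k - 1))) ^
          (a (k + 1))).trace = _
    rw [tr_cyc, hPB]
    rfl

theorem S_two (lam : ℝ) (hl : 0 < lam) (x : ℝ) : S lam 2 x = 2 * lam := by
  unfold S
  rw [show (4 - x ^ 2) * (4 - (2:ℝ) ^ 2) + 4 * lam ^ 2 = (2 * lam) ^ 2 by ring]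
  exact Real.sqrt_sq (by positivity)

theorem track (hTr : T_TRIG) (hV : T_ADMV) : T_TRACK := by
  intro lam hl a ha b w s h
  induction h with
  | nil =>
    refine ⟨1, 1, Or.inl rfl, Or.inl rfl, fun x _ => ?_⟩
    cases b with
    | false =>
      simp only [run_nil, rootSt, tP, tQ, tW, Mm, off, zz, S_two lam hl]
      refine ⟨?_, ?_⟩
      · ext <;> simp [Matrix.trace_fin_two]
        norm_num
      · simp [Matrix.trace_fin_two, Matrix.mul_apply, Fin.sum_univ_two]; ring
    | true =>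
      simp only [run_nil, rootSt, tP, tQ, tW, Mm, off, zz, S_two lam hl]
      refine ⟨?_, ?_⟩
      · ext <;> simp [Matrix.trace_fin_two]
        norm_num
      · simp [Matrix.trace_fin_two, Matrix.mul_apply, Fin.sum_univ_two]; ring
  | @snoc t r w σ h1 h2 ih =>
    obtain ⟨s₁, s₂, g1, g2, g3⟩ := ih
    have ht : ∀ k j, t = St.minus k j → 1 ≤ j := fun k j hh => (h1.idx ha k j hh).1
    have hs2 : s₂ ^ 2 = 1 := by rcases g2 with g2 | g2 <;> rw [g2] <;> norm_num
    have hσ : σ.Valid := (VW_snoc.1 (hV a ha b (w ++ [σ]) r (Adm.snoc h1 h2)).1).2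
    refine ⟨s₂, (-1) ^ σ.i * sgn t * s₁ * s₂ ^ σ.m, g2, ?_, fun x hx => ?_⟩
    · have e1 : ((-1 : ℝ) ^ σ.i = 1 ∨ (-1 : ℝ) ^ σ.i = -1) := neg_one_pow_eq_or ℝ σ.i
      have e2 : sgn t = 1 ∨ sgn t = -1 := by cases t <;> simp [sgn]
      have e3 : s₂ ^ σ.m = 1 ∨ s₂ ^ σ.m = -1 := by
        rcases g2 with g2 | g2
        · left; rw [g2, one_pow]
        · rw [g2]; exact neg_one_pow_eq_or ℝ σ.m
      rcases e1 with e1 | e1 <;> rcases e2 with e2 | e2 <;> rcases e3 with e3 | e3 <;>
        rcases g1 with g1 | g1 <;> rw [e1, e2, e3, g1] <;> norm_num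
    · obtain ⟨hx1, hx2⟩ := (InR_snoc lam w σ _).1 hx
      obtain ⟨k1, k2⟩ := g3 x hx1
      obtain ⟨n0, n1, n2, n3⟩ := tau_next ha h2 ht lam (x + off lam b)
      have y1 : (run lam w (2, x)).1 = s₁ * tP lam a t (x + off lam b) := by rw [k1]
      have x1 : (run lam w (2, x)).2 = s₂ * tQ lam a t (x + off lam b) := by rw [k1]
      have hT := T_eq lam a t ht (x + off lam b) _ _ s₁ s₂ hs2 y1 x1 k2
      have hX : X lam σ (run lam w (2, x)).1 (run lam w (2, x)).2 =
          (-1) ^ σ.i * sgn t * s₁ * s₂ ^ σ.m * tQ lam a r (x + off lam b) := by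
        unfold X
        rw [n3, hT σ.m, n1]; ring
      have hrun : run lam (w ++ [σ]) (2, x) = (s₂ * tP lam a r (x + off lam b),
          (-1) ^ σ.i * sgn t * s₁ * s₂ ^ σ.m * tQ lam a r (x + off lam b)) := by
        rw [run_snoc, stepP, hX, x1, n0]
      refine ⟨hrun, ?_⟩
      have sheet := (hTr lam hl).2.2.2.2.2.2.2.2.2.1 σ hσ (run lam w (2, x)).1
        (run lam w (2, x)).2 hx2
      rw [run_snoc, stepP]
      simp only
      rw [sheet, n3, hT (σ.m + 1), n2]
      rw [pow_succ]
      ring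

end H31.ST
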