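import Pool.Agent.H31.ST.DISJ
import Pool.Agent.H31.ST.TRACK
import Pool.Agent.H31.ST.COVER
import Pool.Agent.H31.ST.INEQ
import Pool.Agent.H31.ST.FINAL
import Pool.Agent.H56.ST.TRIG
import Pool.Agent.H56.ST.CONT
import Pool.Agent.H56.ST.CLOSE
import Pool.Agent.H56.ST.COM
import Pool.Agent.H56.ST.POLY
import Pool.Agent.H97.ST.STRIP
import Pool.Agent.H97.ST.CURVE
import Pool.Agent.H34.ST.POSMUL
import Pool.Agent.H34.ST.LAG
import Pool.Agent.H34.ST.RATIO
import Pool.Agent.H24.ST.FRAME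
import Pool.Agent.H24.ST.MATDER
import Pool.Agent.H24.ST.SLICE
import Pool.Agent.H24.ST.JAC
import Pool.Agent.H73.ST.Adm
import Pool.Agent.H73.ST.Sum
import Pool.Agent.H33.ST.BAND
import Pool.Agent.H33.ST.ZEROS
import Pool.Agent.H33.ST.PATH
import Pool.Agent.H33.ST.COMP
import Pool.Agent.H94.ST.EPOS
import Pool.Agent.H18.ST.GAP
import Pool.Agent.H47.ST.Pre
import Pool.Agent.H81.ST.Transfer2
import Pool.Agent.H21.ST.TEL
import Pool.Agent.H18.ST.CHAIN
import Pool.Agent.H34.ST.DIG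
import Pool.Agent.H81.ST.MEASD
import Pool.Agent.H11.ST.BLOCH
import Pool.Agent.H11.ST.CYC
import Pool.Agent.H11.ST.OPER
import Pool.Agent.H25.ST.CHRIS
import Pool.Agent.H25.ST.SPEC2
import Pool.Agent.H25.ST.WIN2
import Pool.Agent.H58.ST.CONV
import Pool.Agent.H58.ST.WIN1
import Pool.Agent.H31.ST.Link
import Pool.Agent.H81.ST.ZERO1
import Pool.Agent.H58.ST.SPEC1

/-! Assembly of the modules for MP_0b97f5_mp.  helper31 -/

namespace H31.ST

theorem all_TRIG : T_TRIG := H56.trig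
theorem all_CONT : T_CONT := H56.cont
theorem all_CURVE1 : T_CURVE1 := H97.curve1 all_TRIG all_CONT H97.strip
theorem all_CURVE : T_CURVE := H97.curve all_CURVE1
theorem all_FRAME : T_FRAME := H24.FRAME all_TRIG
theorem all_MATDER : T_MATDER := H24.MATDER all_FRAME H34.posmul H34.trder all_CONT
theorem all_SLICE : T_SLICE := H24.SLICE all_MATDER (H24.MATCURVE all_MATDER)
theorem all_JAC : T_JAC := H24.JAC all_TRIG
theorem all_CLOSE : T_CLOSE := H56.close all_JAC all_SLICE all_CURVE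
theorem all_EPOS : T_EPOS := _root_.H94.ST.EPOS H34.posmul
theorem all_GAP : T_GAP := H18.gap all_EPOS H34.trder H56.com
theorem all_TRACK : T_TRACK := track all_TRIG H73.admv
theorem all_BAND : T_BAND := H33.band all_SLICE all_CURVE all_CURVE1
theorem all_DISJ : T_DISJ := disj all_TRACK all_BAND H73.admv
theorem all_ZEROS : T_ZEROS := H33.zeros H73.count all_DISJ all_TRACK all_BAND H73.admv
theorem all_COVER : T_COVER :=
  cover H73.count all_DISJ all_TRACK all_BAND H73.admv H56.poly all_ZEROS all_GAP H34.lag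
theorem all_PATH : T_PATH := H33.path H56.esc all_COVER all_TRACK all_BAND H73.admv
theorem all_CPT : T_CPT := _root_.H47.ST.cpt H56.esc H56.poly all_ZEROS

theorem all_CHAIN : T_CHAIN :=
  H18.chain all_TRACK H56.poly all_ZEROS all_GAP H34.lag all_BAND H34.ratio all_TRIG H73.admv

theorem all_INEQ : T_INEQ :=
  ineq all_PATH all_CHAIN (H33.comp all_CHAIN all_CLOSE H21.TEL all_BAND H73.admv) H73.sum
    _root_.H47.ST.pre_thm all_DISJ _root_.Pool.Agent.H81.ST.transfer all_CPT H73.admv all_BAND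

theorem all_MEASD : T_MEASD := _root_.Pool.Agent.H81.ST.measd H56.esc H56.poly all_CPT
theorem all_DIG : T_DIG := H34.dig'
theorem all_GROWTH : T_GROWTH := H34.growth
theorem all_CONV : T_CONV := H58.conv all_DIG
theorem all_SPEC2 : T_SPEC2 :=
  spec2 all_DIG chris all_CONV win2 _root_.Pool.Agent.H11.ST.bloch

theorem all_SPEC1 : T_SPEC1 :=
  H58.spec1 H56.esc chris all_DIG all_CONV H58.win1 _root_.Pool.Agent.H11.ST.cyc
    _root_.Pool.Agent.H11.ST.oper

theorem all_ZERO1 : T_ZERO1 := _root_.Pool.Agent.H81.ST.zero1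

theorem all_FINAL : T_FINAL :=
  final all_INEQ all_DIG all_GROWTH all_ZERO1 all_MEASD all_SPEC1 all_SPEC2

end H31.ST
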