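import Pool.Agent.H31.ST.Targets

/-! Basic lemmas for MP_0b97f5_mp.  helper31 -/

open Set Filter Topology Matrix

noncomputable section

namespace H31.ST

theorem run_append (lam : ℝ) (w w' : List Sym) (p : ℝ × ℝ) :
    run lam (w ++ w') p = run lam w' (run lam w p) := by
  induction w generalizing p with
  | nil => rfl
  | cons s w ih => simp only [List.cons_append, run, ih]

@[simp] theorem run_nil (lam : ℝ) (p : ℝ × ℝ) : run lam [] p = p := rfl

@[simp] theorem run_cons (lam : ℝ) (s : Sym) (w : List Sym) (p : ℝ × ℝ) :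
    run lam (s :: w) p = run lam w (stepP lam s p) := rfl

theorem run_snoc (lam : ℝ) (w : List Sym) (s : Sym) (p : ℝ × ℝ) :
    run lam (w ++ [s]) p = stepP lam s (run lam w p) := by
  rw [run_append]; rfl

theorem run_snoc_fst (lam : ℝ) (w : List Sym) (s : Sym) (p : ℝ × ℝ) :
    (run lam (w ++ [s]) p).1 = (run lam w p).2 := by
  rw [run_snoc]; rfl

theorem run_snoc_snd (lam : ℝ) (w : List Sym) (s : Sym) (p : ℝ × ℝ) :
    (run lam (w ++ [s]) p).2 = X lam s (run lam w p).1 (run lam w p).2 := by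
  rw [run_snoc]; rfl

@[simp] theorem InR_nil (lam : ℝ) (p : ℝ × ℝ) : InR lam [] p ↔ |p.1| ≤ 2 ∧ |p.2| < 2 := Iff.rfl

@[simp] theorem InR_cons (lam : ℝ) (s : Sym) (w : List Sym) (p : ℝ × ℝ) :
    InR lam (s :: w) p ↔ InR1 lam s p ∧ InR lam w (stepP lam s p) := Iff.rfl

theorem InR.bd {lam : ℝ} {w : List Sym} {p : ℝ × ℝ} (h : InR lam w p) :
    |p.1| ≤ 2 ∧ |p.2| < 2 := by
  cases w with
  | nil => exact h
  | cons s w => exact ⟨h.1.1, h.1.2.1⟩

theorem InR_append (lam : ℝ) (w w' : List Sym) (p : ℝ × ℝ) :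
    InR lam (w ++ w') p ↔ InR lam w p ∧ InR lam w' (run lam w p) := by
  induction w generalizing p with
  | nil =>
    simp only [List.nil_append, InR_nil, run_nil]
    exact ⟨fun h => ⟨h.bd, h⟩, fun h => h.2⟩
  | cons s w ih =>
    simp only [List.cons_append, InR_cons, ih, run_cons, and_assoc]

theorem InR_bd' {lam : ℝ} {w : List Sym} {p : ℝ × ℝ} (h : InR lam w p) :
    |(run lam w p).1| ≤ 2 ∧ |(run lam w p).2| < 2 := by
  have := (InR_append lam w [] p).1 (by simpa using h)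
  exact this.2

theorem InR_singleton (lam : ℝ) (s : Sym) (p : ℝ × ℝ) : InR lam [s] p ↔ InR1 lam s p := by
  simp only [InR_cons, InR_nil, stepP]
  constructor
  · exact fun h => h.1
  · exact fun h => ⟨h, h.2.1.le, h.2.2.2.2⟩

theorem InR_snoc (lam : ℝ) (w : List Sym) (s : Sym) (p : ℝ × ℝ) :
    InR lam (w ++ [s]) p ↔ InR lam w p ∧ InR1 lam s (run lam w p) := by
  rw [InR_append, InR_singleton]

theorem VW_nil : VW [] := by intro s hs; simp at hs

theorem VW_cons {s : Sym} {w : List Sym} : VW (s :: w) ↔ s.Valid ∧ VW w := by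
  unfold VW; simp

theorem VW_append {w w' : List Sym} : VW (w ++ w') ↔ VW w ∧ VW w' := by
  unfold VW
  simp only [List.mem_append]
  constructor
  · exact fun h => ⟨fun s hs => h s (Or.inl hs), fun s hs => h s (Or.inr hs)⟩
  · rintro ⟨h1, h2⟩ s (hs | hs)
    · exact h1 s hs
    · exact h2 s hs

theorem VW_snoc {w : List Sym} {s : Sym} : VW (w ++ [s]) ↔ VW w ∧ s.Valid := by
  rw [VW_append, VW_cons]; simp [VW_nil]

theorem VW_take {w : List Sym} (h : VW w) (n : ℕ) : VW (w.take n) :=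
  fun s hs => h s (List.mem_of_mem_take hs)

theorem drun_append (w w' : List Sym) (d : ℝ × ℝ) :
    drun (w ++ w') d = drun w' (drun w d) := by
  induction w generalizing d with
  | nil => rfl
  | cons s w ih => simp only [List.cons_append, drun, ih]

theorem drun_snoc (w : List Sym) (s : Sym) (d : ℝ × ℝ) :
    drun (w ++ [s]) d = dstep s (drun w d) := by
  rw [drun_append]; rfl

theorem drun_smul (w : List Sym) (c : ℝ) (d : ℝ × ℝ) :
    drun w (c * d.1, c * d.2) = (c * (drun w d).1, c * (drun w d).2) := by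
  induction w generalizing d with
  | nil => rfl
  | cons s w ih =>
    simp only [drun]
    rw [← ih]
    simp only [dstep]
    congr 1
    ext <;> simp <;> ring

theorem Sym.e_sq (s : Sym) : s.e * s.e = 1 := by
  unfold Sym.e; split <;> norm_num

theorem Sym.abs_e (s : Sym) : |s.e| = 1 := by
  unfold Sym.e; split <;> norm_num

theorem Sym.abs_e_mul (s : Sym) (y : ℝ) : |s.e * y| = |y| := by
  rw [abs_mul, s.abs_e, one_mul]

theorem R_sq {lam : ℝ} : R lam ^ 2 = 4 + lam ^ 2 := by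
  unfold R; exact Real.sq_sqrt (by positivity)

theorem R_gt {lam : ℝ} (h : 0 < lam) : 2 < R lam := by
  unfold R
  have : (2:ℝ) = Real.sqrt (2 ^ 2) := by rw [Real.sqrt_sq]; norm_num
  rw [this]
  apply Real.sqrt_lt_sqrt (by norm_num)
  nlinarith [sq_nonneg lam, mul_pos h h]

theorem R_pos (lam : ℝ) : 0 < R lam := by
  unfold R; positivity

/-- monotonicity of the weights along a valid word: `d_prev ≤ d_cur`, both nonnegative -/
theorem drun_mono {w : List Sym} (hw : VW w) {d : ℝ × ℝ} (h0 : 0 ≤ d.1) (h1 : d.1 ≤ d.2) :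
    0 ≤ (drun w d).1 ∧ (drun w d).1 ≤ (drun w d).2 ∧ d.2 ≤ (drun w d).2 := by
  induction w generalizing d with
  | nil => exact ⟨h0, h1, le_refl _⟩
  | cons s w ih =>
    obtain ⟨hs, hw⟩ := VW_cons.1 hw
    have hm : (2:ℝ) ≤ s.m := by exact_mod_cast hs.1
    have h2 : 0 ≤ d.2 := h0.trans h1
    have key : d.2 ≤ s.m * d.2 + s.e * d.1 := by
      unfold Sym.e
      split <;> nlinarith
    have := ih hw (d := dstep s d) (by simpa [dstep] using h2) (by simpa [dstep] using key)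
    simp only [drun]
    refine ⟨this.1, this.2.1, ?_⟩
    refine le_trans ?_ this.2.2
    simpa [dstep] using key

theorem deg_pos {w : List Sym} (hw : VW w) : 1 ≤ deg w := by
  have := (drun_mono hw (d := (0, 1)) (le_refl _) (by norm_num)).2.2
  simpa [deg] using this

theorem off_true (lam : ℝ) : off lam true = lam := rfl
theorem off_false (lam : ℝ) : off lam false = 0 := rfl

theorem Adm.snoc_inv {a : ℕ → ℕ} {s r : St} {w : List Sym} (h : Adm a s w r) :
    (w = [] ∧ r = s) ∨ ∃ w' σ t, w = w' ++ [σ] ∧ Adm a s w' t ∧ Step a t σ r := by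
  cases h with
  | nil => exact Or.inl ⟨rfl, rfl⟩
  | snoc h h' => exact Or.inr ⟨_, _, _, rfl, h, h'⟩

theorem Adm.append {a : ℕ → ℕ} {s t r : St} {w w' : List Sym} (h : Adm a s w t)
    (h' : Adm a t w' r) : Adm a s (w ++ w') r := by
  induction h' with
  | nil => simpa using h
  | snoc h1 h2 ih => rw [← List.append_assoc]; exact Adm.snoc ih h2

theorem Adm.split {a : ℕ → ℕ} {s r : St} {w w' : List Sym} (h : Adm a s (w ++ w') r) :
    ∃ t, Adm a s w t ∧ Adm a t w' r := by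
  induction w' using List.reverseRecOn generalizing r with
  | nil => exact ⟨r, by simpa using h, Adm.nil r⟩
  | append_singleton w' σ ih =>
    rw [← List.append_assoc] at h
    rcases h.snoc_inv with ⟨h1, _⟩ | ⟨w1, σ1, t1, h1, h2, h3⟩
    · simp at h1
    · obtain ⟨e1, e2⟩ := List.append_inj' h1 rfl
      obtain rfl : σ = σ1 := by simpa using e2
      subst e1
      obtain ⟨t, ht1, ht2⟩ := ih h2
      exact ⟨t, ht1, Adm.snoc ht2 h3⟩

theorem Adm.take {a : ℕ → ℕ} {s r : St} {w : List Sym} (h : Adm a s w r) (n : ℕ) :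
    ∃ t, Adm a s (w.take n) t := by
  rw [← List.take_append_drop n w] at h
  obtain ⟨t, h1, _⟩ := h.split
  exact ⟨t, h1⟩

/-- transitions are deterministic -/
theorem Step.inv {a : ℕ → ℕ} {s t : St} {σ : Sym} (h : Step a s σ t) :
    (∃ k, s = St.plus k ∧ σ.pos = true ∧ σ.m = a k ∧ t = St.plus (k + 1) ∧ 1 ≤ σ.i ∧
      σ.i + 1 ≤ a k) ∨
    (∃ k, s = St.plus k ∧ σ.pos = true ∧ σ.m = a k + 1 ∧ t = St.minus (k + 1) 1 ∧ 1 ≤ σ.i ∧
      σ.i ≤ a k) ∨
    (∃ k j, s = St.minus k j ∧ σ.pos = false ∧ σ.m = 2 ∧ σ.i = 1 ∧ 1 ≤ j ∧ j < a k ∧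
      t = St.minus k (j + 1)) ∨
    (∃ k, s = St.minus k (a k) ∧ σ.pos = false ∧ σ.m = a (k + 1) + 1 ∧ 1 ≤ σ.i ∧
      σ.i ≤ a (k + 1) ∧ t = St.plus (k + 2)) ∨
    (∃ k, s = St.minus k (a k) ∧ σ.pos = false ∧ σ.m = a (k + 1) + 2 ∧ 1 ≤ σ.i ∧
      σ.i ≤ a (k + 1) + 1 ∧ t = St.minus (k + 2) 1) := by
  cases h with
  | pp k i h1 h2 => exact Or.inl ⟨k, rfl, rfl, rfl, rfl, h1, h2⟩
  | pm k i h1 h2 => exact Or.inr (Or.inl ⟨k, rfl, rfl, rfl, rfl, h1, h2⟩)
  | mm k j h1 h2 => exact Or.inr (Or.inr (Or.inl ⟨k, j, rfl, rfl, rfl, rfl, h1, h2, rfl⟩))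
  | mp k i h1 h2 => exact Or.inr (Or.inr (Or.inr (Or.inl ⟨k, rfl, rfl, rfl, h1, h2, rfl⟩)))
  | mn k i h1 h2 => exact Or.inr (Or.inr (Or.inr (Or.inr ⟨k, rfl, rfl, rfl, h1, h2, rfl⟩)))

theorem Step.det {a : ℕ → ℕ} {s t t' : St} {σ : Sym} (h : Step a s σ t) (h' : Step a s σ t') :
    t = t' := by
  rcases h.inv with ⟨k, h1, h2, h3, h4, h5, h6⟩ | ⟨k, h1, h2, h3, h4, h5, h6⟩ |
    ⟨k, j, h1, h2, h3, h4, h5, h6, h7⟩ | ⟨k, h1, h2, h3, h4, h5, h6⟩ |
    ⟨k, h1, h2, h3, h4, h5, h6⟩ <;>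
  rcases h'.inv with ⟨k', g1, g2, g3, g4, g5, g6⟩ | ⟨k', g1, g2, g3, g4, g5, g6⟩ |
    ⟨k', j', g1, g2, g3, g4, g5, g6, g7⟩ | ⟨k', g1, g2, g3, g4, g5, g6⟩ |
    ⟨k', g1, g2, g3, g4, g5, g6⟩ <;>
  simp_all <;> grind

theorem Adm.det {a : ℕ → ℕ} {s t t' : St} {w : List Sym} (h : Adm a s w t) (h' : Adm a s w t') :
    t = t' := by
  induction w using List.reverseRecOn generalizing t t' with
  | nil =>
    rcases h.snoc_inv with ⟨_, h1⟩ | ⟨w1, σ1, t1, h1, _, _⟩
    · rcases h'.snoc_inv with ⟨_, h2⟩ | ⟨w1, σ1, t1, h2, _, _⟩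
      · rw [h1, h2]
      · simp at h2
    · simp at h1
  | append_singleton w σ ih =>
    rcases h.snoc_inv with ⟨h1, _⟩ | ⟨w1, σ1, t1, h1, h2, h3⟩
    · simp at h1
    · rcases h'.snoc_inv with ⟨h4, _⟩ | ⟨w2, σ2, t2, h4, h5, h6⟩
      · simp at h4
      · obtain ⟨e1, e2⟩ := List.append_inj' h1 rfl
        obtain rfl : σ = σ1 := by simpa using e2
        subst e1
        obtain ⟨e3, e4⟩ := List.append_inj' h4 rfl
        obtain rfl : σ = σ2 := by simpa using e4
        subst e3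
        have := ih h2 h5
        subst this
        exact h3.det h6

end H31.ST
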