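import Pool.Agent.H31.ST.Basic

/-! Closure of the tracking identities, continuity of the traces.  helper31 -/

open Set Filter Topology Matrix

noncomputable section

namespace H31.ST

theorem Mm_cont (lam : ℝ) (a : ℕ → ℕ) (n : ℕ) : Continuous (fun E => Mm lam a E n) := by
  induction n using Nat.strong_induction_on with
  | _ n ih =>
    match n with
    | 0 => simp only [Mm]; exact continuous_const
    | 1 =>
      simp only [Mm]
      refine continuous_matrix (fun i j => ?_)
      fin_cases i <;> fin_cases j <;> simp <;> first | exact continuous_id | exact continuous_const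
    | (n + 2) =>
      simp only [Mm]
      exact (ih n (by omega)).matrix_mul ((ih (n + 1) (by omega)).pow _)

theorem tQ_cont (lam : ℝ) (a : ℕ → ℕ) (s : St) : Continuous (tQ lam a s) := by
  cases s with
  | plus k => exact (Mm_cont lam a (k + 1)).matrix_trace
  | minus k j => exact ((Mm_cont lam a k).matrix_mul ((Mm_cont lam a (k + 1)).pow _)).matrix_trace

theorem tP_cont (lam : ℝ) (a : ℕ → ℕ) (s : St) : Continuous (tP lam a s) := by
  cases s with
  | plus k => exact (Mm_cont lam a k).matrix_trace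
  | minus k j => exact ((Mm_cont lam a k).matrix_mul ((Mm_cont lam a (k + 1)).pow _)).matrix_trace

theorem tW_cont (lam : ℝ) (a : ℕ → ℕ) (s : St) : Continuous (tW lam a s) := by
  cases s with
  | plus k => exact ((Mm_cont lam a k).matrix_mul (Mm_cont lam a (k + 1))).matrix_trace
  | minus k j =>
    exact ((tP_cont lam a (St.minus k j)).mul (tQ_cont lam a (St.minus k j))).sub
      (Mm_cont lam a (k + 1)).matrix_trace

theorem zz_cont (lam : ℝ) : Continuous (fun p : ℝ × ℝ => zz lam p.1 p.2) := by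
  unfold zz S
  fun_prop

/-- TRACK holds on the closed band -/
theorem track_closed (hT : T_TRACK) (hB : T_BAND) (hV : T_ADMV) {lam : ℝ} (hl : 0 < lam)
    {a : ℕ → ℕ} (ha : ∀ k, 1 ≤ a k) {b : Bool} {w : List Sym} {s : St}
    (h : Adm a (rootSt b) w s) :
    ∃ s₁ s₂ : ℝ, (s₁ = 1 ∨ s₁ = -1) ∧ (s₂ = 1 ∨ s₂ = -1) ∧
      ∀ x ∈ Icc (lo lam w) (hi lam w),
        run lam w (2, x) = (s₁ * tP lam a s (x + off lam b), s₂ * tQ lam a s (x + off lam b)) ∧
        zz lam (run lam w (2, x)).1 (run lam w (2, x)).2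
          = s₁ * s₂ * tW lam a s (x + off lam b) := by
  obtain ⟨s₁, s₂, h1, h2, h3⟩ := hT lam hl a ha b w s h
  have hw := (hV a ha b w s h).1
  obtain ⟨_, hlt, _, hCd, hcont, _, _, _, _, _⟩ := hB lam hl w hw
  refine ⟨s₁, s₂, h1, h2, ?_⟩
  have hsub : Icc (lo lam w) (hi lam w) ⊆ closure (Ioo (lo lam w) (hi lam w)) := by
    rw [closure_Ioo hlt.ne]
  have hmem : ∀ x ∈ Ioo (lo lam w) (hi lam w), InR lam w (2, x) := by
    intro x hx
    rw [← hCd] at hx
    exact hx
  have e1 : EqOn (fun x => run lam w (2, x))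
      (fun x => (s₁ * tP lam a s (x + off lam b), s₂ * tQ lam a s (x + off lam b)))
      (Icc (lo lam w) (hi lam w)) := by
    refine EqOn.of_subset_closure (s := Ioo (lo lam w) (hi lam w)) ?_ hcont ?_ Ioo_subset_Icc_self hsub
    · intro x hx
      exact (h3 x (hmem x hx)).1
    · apply Continuous.continuousOn
      have hp := tP_cont lam a s
      have hq := tQ_cont lam a s
      fun_prop
  have e2 : EqOn (fun x => zz lam (run lam w (2, x)).1 (run lam w (2, x)).2)
      (fun x => s₁ * s₂ * tW lam a s (x + off lam b))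
      (Icc (lo lam w) (hi lam w)) := by
    refine EqOn.of_subset_closure (s := Ioo (lo lam w) (hi lam w)) ?_ ?_ ?_ Ioo_subset_Icc_self hsub
    · intro x hx
      exact (h3 x (hmem x hx)).2
    · exact (zz_cont lam).comp_continuousOn hcont
    · apply Continuous.continuousOn
      have hp := tW_cont lam a s
      fun_prop
  exact fun x hx => ⟨e1 hx, e2 hx⟩

/-- reachable minus states have their index in range -/
theorem Adm.idx {a : ℕ → ℕ} (ha : ∀ k, 1 ≤ a k) {b : Bool} {w : List Sym} {s : St}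
    (h : Adm a (rootSt b) w s) : ∀ k j, s = St.minus k j → 1 ≤ j ∧ j ≤ a k := by
  intro k j hs
  rcases h.snoc_inv with ⟨_, h1⟩ | ⟨w1, σ1, t1, _, _, h3⟩
  · rw [h1] at hs
    cases b with
    | false => simp [rootSt] at hs
    | true =>
      simp only [rootSt, St.minus.injEq] at hs
      rw [← hs.2, ← hs.1]
      exact ⟨le_refl _, ha 0⟩
  · rcases h3.inv with ⟨k', g1, g2, g3, g4, g5, g6⟩ | ⟨k', g1, g2, g3, g4, g5, g6⟩ |
      ⟨k', j', g1, g2, g3, g4, g5, g6, g7⟩ | ⟨k', g1, g2, g3, g4, g5, g6⟩ |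
      ⟨k', g1, g2, g3, g4, g5, g6⟩
    · rw [g4] at hs; simp at hs
    · rw [g4] at hs
      simp only [St.minus.injEq] at hs
      rw [← hs.2, ← hs.1]; exact ⟨le_refl _, ha _⟩
    · rw [g7] at hs
      simp only [St.minus.injEq] at hs
      rw [← hs.2, ← hs.1]; exact ⟨by omega, by omega⟩
    · rw [g6] at hs; simp at hs
    · rw [g6] at hs
      simp only [St.minus.injEq] at hs
      rw [← hs.2, ← hs.1]; exact ⟨le_refl _, ha _⟩

theorem Mm_det (lam : ℝ) (a : ℕ → ℕ) (E : ℝ) (n : ℕ) : (Mm lam a E n).det = 1 := by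
  induction n using Nat.strong_induction_on with
  | _ n ih =>
    match n with
    | 0 => simp [Mm, Matrix.det_fin_two]
    | 1 => simp [Mm, Matrix.det_fin_two]
    | (n + 2) =>
      simp only [Mm, Matrix.det_mul, Matrix.det_pow, ih n (by omega), ih (n + 1) (by omega),
        one_pow, mul_one]

/-- `tr A tr (B A^(m+1)) - tr (A B A^(m+1)) = tr (B A^m)` for `det A = 1` -/
theorem trace_identity (A B : Mat) (hA : A.det = 1) (m : ℕ) :
    A.trace * (B * A ^ (m + 1)).trace - (A * (B * A ^ (m + 1))).trace = (B * A ^ m).trace := by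
  have h1 : (B * A ^ (m + 1)) = (B * A ^ m) * A := by rw [pow_succ, ← mul_assoc]
  rw [h1]
  set C := B * A ^ m
  rw [Matrix.det_fin_two] at hA
  simp only [Matrix.trace_fin_two, Matrix.mul_apply, Fin.sum_univ_two]
  linear_combination (-(C 0 0) - C 1 1) * (-1) * hA

end H31.ST
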