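import Pool.Agent.H31.ST.Closure

/-! DISJ: bands with the same terminal word are disjoint.  helper31 -/

open Set Filter Topology Matrix

noncomputable section

namespace H31.ST

theorem S_at_two (lam : ℝ) (hl : 0 < lam) (y x : ℝ) (hx : x ^ 2 = 4) : S lam y x = 2 * lam := by
  unfold S
  rw [hx, sub_self, zero_mul, zero_add, show 4 * lam ^ 2 = (2 * lam) ^ 2 by ring]
  exact Real.sqrt_sq (by positivity)

/-- two codes ending in `plus (n+1)` and `minus n (a n)` have disjoint bands -/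
theorem disj_pm (hT : T_TRACK) (hB : T_BAND) (hV : T_ADMV) {lam : ℝ} (hl : 0 < lam)
    {a : ℕ → ℕ} (ha : ∀ k, 1 ≤ a k) {b b' : Bool} {w w' : List Sym} {n : ℕ}
    (h : Adm a (rootSt b) w (St.plus (n + 1))) (h' : Adm a (rootSt b') w' (St.minus n (a n)))
    {E : ℝ} (hE : E - off lam b ∈ Cd lam w) (hE' : E - off lam b' ∈ Cd lam w') : False := by
  obtain ⟨s₁, s₂, h1, h2, h3⟩ := track_closed hT hB hV hl ha h
  obtain ⟨t₁, t₂, g1, g2, g3⟩ := track_closed hT hB hV hl ha h'
  obtain ⟨_, hlt, _, hCd, hcont, hmono, _, hlo, hhi, _⟩ := hB lam hl w (hV a ha b w _ h).1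
  obtain ⟨_, hlt', _, hCd', hcont', hmono', _, hlo', hhi', _⟩ := hB lam hl w' (hV a ha b' w' _ h').1
  set F : ℝ → ℝ := fun E => (Mm lam a E (n + 2)).trace with hF
  have hs2 : s₂ ^ 2 = 1 := by rcases h2 with h2 | h2 <;> rw [h2] <;> norm_num
  have ht2 : t₂ ^ 2 = 1 := by rcases g2 with g2 | g2 <;> rw [g2] <;> norm_num
  have hs1 : s₁ ^ 2 = 1 := by rcases h1 with h1 | h1 <;> rw [h1] <;> norm_num
  have ht1 : t₁ ^ 2 = 1 := by rcases g1 with g1 | g1 <;> rw [g1] <;> norm_num
  have as2 : |s₂| = 1 := by rcases h2 with h2 | h2 <;> rw [h2] <;> norm_num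
  have at2 : |t₂| = 1 := by rcases g2 with g2 | g2 <;> rw [g2] <;> norm_num
  -- second coordinates
  have hx : ∀ x ∈ Icc (lo lam w) (hi lam w), (run lam w (2, x)).2 = s₂ * F (x + off lam b) := by
    intro x hx; rw [(h3 x hx).1]; rfl
  have hx' : ∀ x ∈ Icc (lo lam w') (hi lam w'),
      (run lam w' (2, x)).2 = t₂ * F (x + off lam b') := by
    intro x hx; rw [(g3 x hx).1]; simp only [tQ, hF, Mm]
  set α := lo lam w + off lam b
  set β := hi lam w + off lam b
  set α' := lo lam w' + off lam b'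
  set β' := hi lam w' + off lam b'
  have Fα : s₂ * F α = -2 := by rw [← hx _ ⟨le_refl _, hlt.le⟩]; exact hlo
  have Fβ : s₂ * F β = 2 := by rw [← hx _ ⟨hlt.le, le_refl _⟩]; exact hhi
  have Fα' : t₂ * F α' = -2 := by rw [← hx' _ ⟨le_refl _, hlt'.le⟩]; exact hlo'
  have Fβ' : t₂ * F β' = 2 := by rw [← hx' _ ⟨hlt'.le, le_refl _⟩]; exact hhi'
  have inner : ∀ z, α < z → z < β → |F z| < 2 := by
    intro z hz1 hz2
    have hmem : z - off lam b ∈ Ioo (lo lam w) (hi lam w) := ⟨by linarith, by linarith⟩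
    have := (InR_bd' (show InR lam w (2, z - off lam b) by rw [← hCd] at hmem; exact hmem)).2
    rw [hx _ (Ioo_subset_Icc_self hmem), abs_mul, as2, one_mul] at this
    simpa using this
  have inner' : ∀ z, α' < z → z < β' → |F z| < 2 := by
    intro z hz1 hz2
    have hmem : z - off lam b' ∈ Ioo (lo lam w') (hi lam w') := ⟨by linarith, by linarith⟩
    have := (InR_bd' (show InR lam w' (2, z - off lam b') by rw [← hCd'] at hmem; exact hmem)).2
    rw [hx' _ (Ioo_subset_Icc_self hmem), abs_mul, at2, one_mul] at this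
    simpa using this
  have Aα : |F α| = 2 := by
    have : |s₂ * F α| = 2 := by rw [Fα]; norm_num
    rwa [abs_mul, as2, one_mul] at this
  have Aβ : |F β| = 2 := by
    have : |s₂ * F β| = 2 := by rw [Fβ]; norm_num
    rwa [abs_mul, as2, one_mul] at this
  have Aα' : |F α'| = 2 := by
    have : |t₂ * F α'| = 2 := by rw [Fα']; norm_num
    rwa [abs_mul, at2, one_mul] at this
  have Aβ' : |F β'| = 2 := by
    have : |t₂ * F β'| = 2 := by rw [Fβ']; norm_num
    rwa [abs_mul, at2, one_mul] at this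
  rw [hCd] at hE
  rw [hCd'] at hE'
  have e1 : α < E := by have := hE.1; simp only [α]; linarith
  have e2 : E < β := by have := hE.2; simp only [β]; linarith
  have e3 : α' < E := by have := hE'.1; simp only [α']; linarith
  have e4 : E < β' := by have := hE'.2; simp only [β']; linarith
  have eα : α = α' := by
    rcases lt_trichotomy α α' with hh | hh | hh
    · have := inner α' hh (by linarith); linarith
    · exact hh
    · have := inner' α hh (by linarith); linarith
  have eβ : β = β' := by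
    rcases lt_trichotomy β β' with hh | hh | hh
    · have := inner' β (by linarith) hh; linarith
    · exact hh
    · have := inner β' (by linarith) hh; linarith
  have est : s₂ = t₂ := by
    rw [← eα] at Fα'
    have hne : F α ≠ 0 := by intro h0; rw [h0] at Aα; simp at Aα
    exact mul_right_cancel₀ hne (by rw [Fα, Fα'])
  -- the relations at a point of both closed bands
  have rel : ∀ E₀ : ℝ, E₀ - off lam b ∈ Icc (lo lam w) (hi lam w) →
      E₀ - off lam b' ∈ Icc (lo lam w') (hi lam w') → s₂ * F E₀ = 2 ∨ s₂ * F E₀ = -2 →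
      ∃ y₁ y₂ : ℝ, (s₂ * F E₀) * y₁ / 2 + lam = (s₁ * t₁ * s₂) * y₂ ∧
        (s₂ * F E₀) * y₂ / 2 + lam = (s₁ * t₁ * s₂) * y₁ := by
    intro E₀ m1 m2 hv
    obtain ⟨p1, p2⟩ := h3 _ m1
    obtain ⟨q1, q2⟩ := g3 _ m2
    simp only [sub_add_cancel] at p1 p2 q1 q2
    have hsq : (s₂ * F E₀) ^ 2 = 4 := by rcases hv with hv | hv <;> rw [hv] <;> norm_num
    have x1 : (run lam w (2, E₀ - off lam b)).2 = s₂ * F E₀ := by rw [p1]; rfl
    have x2 : (run lam w' (2, E₀ - off lam b')).2 = s₂ * F E₀ := by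
      rw [q1, est]; simp only [tQ, hF, Mm]
    have y1 : (run lam w (2, E₀ - off lam b)).1 = s₁ * (Mm lam a E₀ (n + 1)).trace := by
      rw [p1]; rfl
    have y2 : (run lam w' (2, E₀ - off lam b')).1 =
        t₁ * (Mm lam a E₀ n * (Mm lam a E₀ (n + 1)) ^ (a n - 1)).trace := by
      rw [q1]; rfl
    rw [x1, y1] at p2
    rw [x2, y2] at q2
    unfold zz at p2 q2
    rw [S_at_two lam hl _ _ hsq] at p2 q2
    refine ⟨s₁ * (Mm lam a E₀ (n + 1)).trace,
      t₁ * (Mm lam a E₀ n * (Mm lam a E₀ (n + 1)) ^ (a n - 1)).trace, ?_, ?_⟩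
    · have key := trace_identity (Mm lam a E₀ (n + 1)) (Mm lam a E₀ n) (Mm_det lam a E₀ (n + 1))
        (a n - 1)
      rw [Nat.sub_add_cancel (ha n)] at key
      have hW : tW lam a (St.plus (n + 1)) E₀ =
          (Mm lam a E₀ (n + 1) * (Mm lam a E₀ n * Mm lam a E₀ (n + 1) ^ (a n))).trace := by
        simp only [tW, Mm]
      rw [hW] at p2
      have hFE : F E₀ = (Mm lam a E₀ n * Mm lam a E₀ (n + 1) ^ (a n)).trace := by
        simp only [hF, Mm]
      rw [hFE] at p2 ⊢
      set u := (Mm lam a E₀ (n + 1)).trace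
      set v := (Mm lam a E₀ n * Mm lam a E₀ (n + 1) ^ (a n)).trace
      set r := (Mm lam a E₀ (n + 1) * (Mm lam a E₀ n * Mm lam a E₀ (n + 1) ^ (a n))).trace
      rw [← key]
      linear_combination (-1) * p2 + s₁ * s₂ * (r - u * v) * ht1
    · have hW : tW lam a (St.minus n (a n)) E₀ =
          (Mm lam a E₀ n * (Mm lam a E₀ (n + 1)) ^ (a n - 1)).trace * F E₀ -
            (Mm lam a E₀ (n + 1)).trace := by
        simp only [tW, tP, tQ, hF, Mm]
      rw [hW, ← est] at q2
      linear_combination (-1) * q2 - t₁ * s₂ * (Mm lam a E₀ (n + 1)).trace * hs1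
  have mα : α - off lam b ∈ Icc (lo lam w) (hi lam w) := by
    simp only [α, add_sub_cancel_right]; exact ⟨le_refl _, hlt.le⟩
  have mα' : α - off lam b' ∈ Icc (lo lam w') (hi lam w') := by
    rw [eα]; simp only [α', add_sub_cancel_right]; exact ⟨le_refl _, hlt'.le⟩
  have mβ : β - off lam b ∈ Icc (lo lam w) (hi lam w) := by
    simp only [β, add_sub_cancel_right]; exact ⟨hlt.le, le_refl _⟩
  have mβ' : β - off lam b' ∈ Icc (lo lam w') (hi lam w') := by
    rw [eβ]; simp only [β', add_sub_cancel_right]; exact ⟨hlt'.le, le_refl _⟩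
  obtain ⟨y₁, y₂, r1, r2⟩ := rel α mα mα' (Or.inr Fα)
  obtain ⟨z₁, z₂, r3, r4⟩ := rel β mβ mβ' (Or.inl Fβ)
  rw [Fα] at r1 r2
  rw [Fβ] at r3 r4
  have hτ : s₁ * t₁ * s₂ = 1 ∨ s₁ * t₁ * s₂ = -1 := by
    rcases h1 with h1 | h1 <;> rcases g1 with g1 | g1 <;> rcases h2 with h2 | h2 <;>
      rw [h1, g1, h2] <;> norm_num
  rcases hτ with hτ | hτ
  · rw [hτ] at r3 r4; linarith
  · rw [hτ] at r1 r2; linarith

theorem step_term {a : ℕ → ℕ} {t t' s : St} {σ σ' : Sym} (h : Step a t σ s)
    (h' : Step a t' σ' s) : term a t = term a t' := by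
  rcases h.inv with ⟨k, h1, h2, h3, h4, h5, h6⟩ | ⟨k, h1, h2, h3, h4, h5, h6⟩ |
    ⟨k, j, h1, h2, h3, h4, h5, h6, h7⟩ | ⟨k, h1, h2, h3, h4, h5, h6⟩ |
    ⟨k, h1, h2, h3, h4, h5, h6⟩ <;>
  rcases h'.inv with ⟨k', g1, g2, g3, g4, g5, g6⟩ | ⟨k', g1, g2, g3, g4, g5, g6⟩ |
    ⟨k', j', g1, g2, g3, g4, g5, g6, g7⟩ | ⟨k', g1, g2, g3, g4, g5, g6⟩ |
    ⟨k', g1, g2, g3, g4, g5, g6⟩ <;>
  subst h1 <;> subst g1 <;> simp_all [term]

theorem step_sym {a : ℕ → ℕ} {t s : St} {σ σ' : Sym} (h : Step a t σ s)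
    (h' : Step a t σ' s) : σ.pos = σ'.pos ∧ σ.m = σ'.m := by
  rcases h.inv with ⟨k, h1, h2, h3, h4, h5, h6⟩ | ⟨k, h1, h2, h3, h4, h5, h6⟩ |
    ⟨k, j, h1, h2, h3, h4, h5, h6, h7⟩ | ⟨k, h1, h2, h3, h4, h5, h6⟩ |
    ⟨k, h1, h2, h3, h4, h5, h6⟩ <;>
  rcases h'.inv with ⟨k', g1, g2, g3, g4, g5, g6⟩ | ⟨k', g1, g2, g3, g4, g5, g6⟩ |
    ⟨k', j', g1, g2, g3, g4, g5, g6, g7⟩ | ⟨k', g1, g2, g3, g4, g5, g6⟩ |
    ⟨k', g1, g2, g3, g4, g5, g6⟩ <;>
  subst h1 <;> simp_all

theorem not_step_root {a : ℕ → ℕ} {t : St} {σ : Sym} {b : Bool} : ¬ Step a t σ (rootSt b) := by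
  intro h
  rcases h.inv with ⟨k, h1, h2, h3, h4, h5, h6⟩ | ⟨k, h1, h2, h3, h4, h5, h6⟩ |
    ⟨k, j, h1, h2, h3, h4, h5, h6, h7⟩ | ⟨k, h1, h2, h3, h4, h5, h6⟩ |
    ⟨k, h1, h2, h3, h4, h5, h6⟩ <;> cases b <;>
    simp_all [rootSt] <;> omega

theorem term_cases {a : ℕ → ℕ} {s s' : St} (hs : ∀ k j, s = St.minus k j → 1 ≤ j ∧ j ≤ a k)
    (hs' : ∀ k j, s' = St.minus k j → 1 ≤ j ∧ j ≤ a k) (h : term a s = term a s') :
    s = s' ∨ (∃ n, s = St.plus (n + 1) ∧ s' = St.minus n (a n)) ∨
      (∃ n, s' = St.plus (n + 1) ∧ s = St.minus n (a n)) := by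
  cases s with
  | plus k =>
    cases s' with
    | plus k' => simp [term] at h; left; rw [h]
    | minus k' j' =>
      have := hs' k' j' rfl
      simp only [term] at h
      split at h
      · rename_i hj
        simp only [Prod.mk.injEq, and_true] at h
        right; left
        exact ⟨k', by congr 1; omega, by rw [hj]⟩
      · simp only [Prod.mk.injEq] at h; omega
  | minus k j =>
    have h1 := hs k j rfl
    cases s' with
    | plus k' =>
      simp only [term] at h
      split at h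
      · rename_i hj
        simp only [Prod.mk.injEq, and_true] at h
        right; right
        exact ⟨k, by congr 1; omega, by rw [hj]⟩
      · simp only [Prod.mk.injEq] at h; omega
    | minus k' j' =>
      have h2 := hs' k' j' rfl
      simp only [term] at h
      split at h <;> split at h
      · rename_i hj hj'
        simp only [Prod.mk.injEq, and_true] at h
        have : k = k' := by omega
        subst this
        left; rw [hj, hj']
      · simp only [Prod.mk.injEq] at h; omega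
      · simp only [Prod.mk.injEq] at h; omega
      · simp only [Prod.mk.injEq] at h
        left; rw [h.1, h.2]

theorem disj (hT : T_TRACK) (hB : T_BAND) (hV : T_ADMV) : T_DISJ := by
  intro lam hl a ha b b' w w' s s' h h' hterm E hE hE'
  induction hN : w.length + w'.length using Nat.strong_induction_on generalizing w w' s s' with
  | _ N ih =>
    rcases term_cases (h.idx ha) (h'.idx ha) hterm with hss | ⟨n, e1, e2⟩ | ⟨n, e1, e2⟩
    · subst hss
      rcases h.snoc_inv with ⟨hw, h1⟩ | ⟨w1, σ1, t1, hw, h2, h3⟩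
      · rcases h'.snoc_inv with ⟨hw', h1'⟩ | ⟨w1', σ1', t1', hw', h2', h3'⟩
        · refine ⟨?_, by rw [hw, hw']⟩
          rw [h1] at h1'
          cases b <;> cases b' <;> simp_all [rootSt]
        · rw [h1] at h3'; exact absurd h3' not_step_root
      · rcases h'.snoc_inv with ⟨hw', h1'⟩ | ⟨w1', σ1', t1', hw', h2', h3'⟩
        · rw [h1'] at h3; exact absurd h3 not_step_root
        · subst hw; subst hw'
          have m1 := (InR_snoc lam w1 σ1 _).1 hE
          have m1' := (InR_snoc lam w1' σ1' _).1 hE'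
          simp only [List.length_append, List.length_singleton] at hN
          obtain ⟨rfl, rfl⟩ := ih (w1.length + w1'.length) (by omega) w1 w1' t1 t1' h2 h2'
            (step_term h3 h3') m1.1 m1'.1 rfl
          refine ⟨rfl, ?_⟩
          congr 1
          obtain rfl := h2.det h2'
          obtain ⟨c1, c2⟩ := step_sym h3 h3'
          obtain ⟨p1, m1_, i1⟩ := σ1
          obtain ⟨p2, m2_, i2⟩ := σ1'
          simp only at c1 c2
          subst c1; subst c2
          have k1 := m1.2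
          have k2 := m1'.2
          simp only [InR1, Psi, Sym.e] at k1 k2
          have u1 := k1.2.2.1.trans k2.2.2.2.1
          have u2 := k2.2.2.1.trans k1.2.2.2.1
          have hpi := Real.pi_pos
          have u3 : (i1 : ℝ) < i2 + 1 := lt_of_mul_lt_mul_right u1 hpi.le
          have u4 : (i2 : ℝ) < i1 + 1 := lt_of_mul_lt_mul_right u2 hpi.le
          have u5 : i1 < i2 + 1 := by exact_mod_cast u3
          have u6 : i2 < i1 + 1 := by exact_mod_cast u4
          have : i1 = i2 := by omega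
          rw [this]
    · subst e1; subst e2
      exact (disj_pm hT hB hV hl ha h h' hE hE').elim
    · subst e1; subst e2
      exact (disj_pm hT hB hV hl ha h' h hE' hE).elim

end H31.ST
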