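import Mathlib

/-!
# Definitions for MP_0b97f5_mp (Sturmian spectral dimensions at all couplings)
helper31.  See the blueprint `H31_ST_blueprint.md` in the team store.
-/

open Set Filter Topology Matrix

noncomputable section

namespace H31.ST

abbrev Mat := Matrix (Fin 2) (Fin 2) ℝ

/-! ## The square, symbols, the maps -/

/-- A symbol `(ε, m, i)`; `pos = true` means `ε = +`. -/
structure Sym where
  pos : Bool
  m : ℕ
  i : ℕ
deriving DecidableEq

/-- valid symbols: `m ≥ 2`, `1 ≤ i ≤ m - 1` -/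
def Sym.Valid (s : Sym) : Prop := 2 ≤ s.m ∧ 1 ≤ s.i ∧ s.i + 1 ≤ s.m

/-- the sign `ε` as a real number -/
def Sym.e (s : Sym) : ℝ := if s.pos then 1 else -1

/-- valid words -/
def VW (w : List Sym) : Prop := ∀ s ∈ w, s.Valid

/-- `R = sqrt (4 + λ^2)` -/
def R (lam : ℝ) : ℝ := Real.sqrt (4 + lam ^ 2)

/-- `S(y,x) = sqrt ((4-x²)(4-y²)+4λ²)` -/
def S (lam y x : ℝ) : ℝ := Real.sqrt ((4 - x ^ 2) * (4 - y ^ 2) + 4 * lam ^ 2)

/-- the trace `z = tr (PQ)` on the sheet `2z - xy < 0` -/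
def zz (lam y x : ℝ) : ℝ := (x * y - S lam y x) / 2

/-- `T_0 = y`, `T_1 = z`, `T_{m+2} = x T_{m+1} - T_m`; so `T_m = tr (P Q^m)` -/
def T (lam y x : ℝ) : ℕ → ℝ
  | 0 => y
  | 1 => zz lam y x
  | (m + 2) => x * T lam y x (m + 1) - T lam y x m

/-- `g(x) = 1 / A(x)`, `A(x) = 2 sqrt ((R²-x²)/(4-x²))` -/
def g (lam x : ℝ) : ℝ := Real.sqrt ((4 - x ^ 2) / (4 * (4 + lam ^ 2 - x ^ 2)))

def phi (lam y x : ℝ) : ℝ := Real.arccos (y * g lam x)

def theta (x : ℝ) : ℝ := Real.arccos (x / 2)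

/-- the phase of the symbol `s` at the point `(y,x)` -/
def Psi (lam : ℝ) (s : Sym) (y x : ℝ) : ℝ := s.m * theta x + phi lam (s.e * y) x

/-- the (normalised) new trace -/
def X (lam : ℝ) (s : Sym) (y x : ℝ) : ℝ := (-1) ^ s.i * T lam (s.e * y) x s.m

/-- points of the square at which the symbol `s` can be applied -/
def InR1 (lam : ℝ) (s : Sym) (p : ℝ × ℝ) : Prop :=
  |p.1| ≤ 2 ∧ |p.2| < 2 ∧ s.i * Real.pi < Psi lam s p.1 p.2 ∧
    Psi lam s p.1 p.2 < (s.i + 1) * Real.pi ∧ |X lam s p.1 p.2| < 2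

/-- the map of the symbol `s`: `(y,x) ↦ (x, x')` -/
def stepP (lam : ℝ) (s : Sym) (p : ℝ × ℝ) : ℝ × ℝ := (p.2, X lam s p.1 p.2)

/-- apply the symbols of a word one after the other (first symbol first) -/
def run (lam : ℝ) : List Sym → ℝ × ℝ → ℝ × ℝ
  | [], p => p
  | s :: w, p => run lam w (stepP lam s p)

/-- points to which the word can be applied -/
def InR (lam : ℝ) : List Sym → ℝ × ℝ → Prop
  | [], p => |p.1| ≤ 2 ∧ |p.2| < 2
  | s :: w, p => InR1 lam s p ∧ InR lam w (stepP lam s p)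

/-- degrees (weights) along a word: `(d_prev, d_cur) ↦ (d_cur, m d_cur + ε d_prev)` -/
def dstep (s : Sym) (d : ℝ × ℝ) : ℝ × ℝ := (d.2, s.m * d.2 + s.e * d.1)

def drun : List Sym → ℝ × ℝ → ℝ × ℝ
  | [], d => d
  | s :: w, d => drun w (dstep s d)

/-- the degree of a word -/
def deg (w : List Sym) : ℝ := (drun w (0, 1)).2

/-! ## Curves in the square -/

/-- `f` is strictly increasing through the point `t` -/
def LocInc (f : ℝ → ℝ) (t : ℝ) : Prop :=
  (∀ᶠ s in 𝓝[<] t, f s < f t) ∧ (∀ᶠ s in 𝓝[>] t, f t < f s)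

/-- a curve crossing the square from `x = -2` to `x = 2`, along which every trace increases
wherever it is `< 2` in absolute value -/
structure Curve (lam : ℝ) (c : ℝ → ℝ × ℝ) (u v : ℝ) : Prop where
  huv : u < v
  cont : ContinuousOn c (Icc u v)
  y2 : ∀ t ∈ Icc u v, |(c t).1| ≤ 2
  xu : (c u).2 = -2
  xv : (c v).2 = 2
  xmono : StrictMonoOn (fun t => (c t).2) (Icc u v)
  loc : ∀ w : List Sym, VW w → ∀ t ∈ Ioo u v, InR lam w (c t) →
    LocInc (fun s => (run lam w (c s)).2) t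

/-! ## Matrices -/

/-- the generator of rotations -/
def J : Mat := !![0, -1; 1, 0]

/-- `A' = - J H A` at `t` with `H` positive semidefinite, `det H ≥ d²` -/
def Pos (A : ℝ → Mat) (t d : ℝ) : Prop :=
  ∃ H : Mat, H 0 1 = H 1 0 ∧ 0 ≤ H 0 0 ∧ 0 ≤ H 1 1 ∧ 0 ≤ d ∧ d ^ 2 ≤ H.det ∧
    ∀ i j, HasDerivAt (fun s => A s i j) ((-(J * H * A t)) i j) t

/-- the same with `H ≠ 0` -/
def SPos (A : ℝ → Mat) (t d : ℝ) : Prop :=
  ∃ H : Mat, H 0 1 = H 1 0 ∧ 0 ≤ H 0 0 ∧ 0 ≤ H 1 1 ∧ 0 < H 0 0 + H 1 1 ∧ 0 ≤ d ∧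
    d ^ 2 ≤ H.det ∧ ∀ i j, HasDerivAt (fun s => A s i j) ((-(J * H * A t)) i j) t

/-- framed pair: `P`, `Q = N P` in `SL₂(ℝ)` on the right sheet, `Q` positively oriented -/
structure Framed (lam : ℝ) (P N : Mat) : Prop where
  dP : P.det = 1
  dN : N.det = 1
  hz : (P * (N * P)).trace = zz lam P.trace (N * P).trace
  hor : 0 < (N * P) 1 0

/-- the matrix version of a symbol: `(P, N) ↦ (P', N')` with `Q = N P`, `P' = Q`,
`Q' = N' P' = ± P Q^m` (for `+`), `± N Q^(m-1)` (for `-`) -/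
def stepM (s : Sym) (P N : Mat) : Mat × Mat :=
  if s.pos then (N * P, ((-1 : ℝ) ^ s.i) • (P * (N * P) ^ (s.m - 1)))
  else (N * P, ((-1 : ℝ) ^ (s.i + 1)) • (N * (N * P) ^ (s.m - 2)))

def runM : List Sym → Mat × Mat → Mat × Mat
  | [], p => p
  | s :: w, p => runM w (stepM s p.1 p.2)

/-! ## The energy curve -/

/-- transfer matrices: `M 0 = M_{-1}`, `M 1 = M_0`, `M (n+2) = M n * M (n+1) ^ (a n)`
(`a n` is the partial quotient `a_{n+1}`) -/
def Mm (lam : ℝ) (a : ℕ → ℕ) (E : ℝ) : ℕ → Mat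
  | 0 => !![1, -lam; 0, 1]
  | 1 => !![E, -1; 1, 0]
  | (n + 2) => Mm lam a E n * (Mm lam a E (n + 1)) ^ (a n)

/-- the traces; `xt lam a n E` is the classical `x_{n-1}(E)` -/
def xt (lam : ℝ) (a : ℕ → ℕ) (n : ℕ) (E : ℝ) : ℝ := (Mm lam a E n).trace

/-- degrees of the traces -/
def qd (a : ℕ → ℕ) : ℕ → ℕ
  | 0 => 0
  | 1 => 1
  | (n + 2) => a n * qd a (n + 1) + qd a n

/-- the spectrum in terms of traces -/
def SpecSet (lam : ℝ) (a : ℕ → ℕ) : Set ℝ :=
  {E | ∀ n, |xt lam a n E| ≤ 2 ∨ |xt lam a (n + 1) E| ≤ 2}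

/-- combinatorial states: `plus k` is the pair `(M k | M (k+1))`,
`minus k j` is the pair `(M k M(k+1)^(j-1) | M k M(k+1)^j)`, `1 ≤ j ≤ a k` -/
inductive St where
  | plus (k : ℕ) : St
  | minus (k j : ℕ) : St
deriving DecidableEq

/-- trace of the first element of the pair -/
def tP (lam : ℝ) (a : ℕ → ℕ) : St → ℝ → ℝ
  | St.plus k, E => (Mm lam a E k).trace
  | St.minus k j, E => (Mm lam a E k * (Mm lam a E (k + 1)) ^ (j - 1)).trace

/-- trace of the second element of the pair -/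
def tQ (lam : ℝ) (a : ℕ → ℕ) : St → ℝ → ℝ
  | St.plus k, E => (Mm lam a E (k + 1)).trace
  | St.minus k j, E => (Mm lam a E k * (Mm lam a E (k + 1)) ^ j).trace

/-- the admissible transitions for the digits `a` -/
inductive Step (a : ℕ → ℕ) : St → Sym → St → Prop
  | pp (k i : ℕ) (h1 : 1 ≤ i) (h2 : i + 1 ≤ a k) : Step a (St.plus k) ⟨true, a k, i⟩ (St.plus (k + 1))
  | pm (k i : ℕ) (h1 : 1 ≤ i) (h2 : i ≤ a k) :
      Step a (St.plus k) ⟨true, a k + 1, i⟩ (St.minus (k + 1) 1)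
  | mm (k j : ℕ) (h1 : 1 ≤ j) (h2 : j < a k) : Step a (St.minus k j) ⟨false, 2, 1⟩ (St.minus k (j + 1))
  | mp (k i : ℕ) (h1 : 1 ≤ i) (h2 : i ≤ a (k + 1)) :
      Step a (St.minus k (a k)) ⟨false, a (k + 1) + 1, i⟩ (St.plus (k + 2))
  | mn (k i : ℕ) (h1 : 1 ≤ i) (h2 : i ≤ a (k + 1) + 1) :
      Step a (St.minus k (a k)) ⟨false, a (k + 1) + 2, i⟩ (St.minus (k + 2) 1)

/-- admissible words from one state to another -/
inductive Adm (a : ℕ → ℕ) : St → List Sym → St → Prop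
  | nil (s : St) : Adm a s [] s
  | snoc {s t r : St} {w : List Sym} {σ : Sym} (h : Adm a s w t) (h' : Step a t σ r) :
      Adm a s (w ++ [σ]) r

/-- the two root states -/
def rootSt : Bool → St
  | false => St.plus 0
  | true => St.minus 0 1

/-- energy offset of the two roots: `E = x + off` -/
def off (lam : ℝ) : Bool → ℝ
  | false => 0
  | true => lam

/-- the coded band of a word on the slice `y = 2` -/
def Cd (lam : ℝ) (w : List Sym) : Set ℝ := {x | InR lam w (2, x)}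

def lo (lam : ℝ) (w : List Sym) : ℝ := sInf (Cd lam w)
def hi (lam : ℝ) (w : List Sym) : ℝ := sSup (Cd lam w)

/-- the terminal word of the state is `M n` -/
def IsTerm (a : ℕ → ℕ) : St → ℕ → Prop
  | St.plus k, n => n = k + 1
  | St.minus k j, n => j = a k ∧ n = k + 2

/-- name of the terminal word of a state: `(n, 0)` for `M n`, `(k, j)` for `M k M(k+1)^j` -/
def term (a : ℕ → ℕ) : St → ℕ × ℕ
  | St.plus k => (k + 1, 0)
  | St.minus k j => if j = a k then (k + 2, 0) else (k, j)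

/-- trace of the product `P Q` of a state -/
def tW (lam : ℝ) (a : ℕ → ℕ) : St → ℝ → ℝ
  | St.plus k, E => (Mm lam a E k * Mm lam a E (k + 1)).trace
  | St.minus k j, E =>
      tP lam a (St.minus k j) E * tQ lam a (St.minus k j) E - (Mm lam a E (k + 1)).trace

/-- degrees of the pair of words of a state -/
def dP (a : ℕ → ℕ) : St → ℕ
  | St.plus k => qd a k
  | St.minus k j => qd a k + (j - 1) * qd a (k + 1)

def dQ (a : ℕ → ℕ) : St → ℕ
  | St.plus k => qd a (k + 1)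
  | St.minus k j => qd a k + j * qd a (k + 1)

/-- shift of a state by two levels -/
def St.shift : St → St
  | St.plus k => St.plus (k + 2)
  | St.minus k j => St.minus (k + 2) j

/-- digits shifted by two -/
def shift2 (a : ℕ → ℕ) : ℕ → ℕ := fun n => a (n + 2)

/-- the prefix from the root `minus 0 1` to (the shift by two of) the root state `b`:
`u_+ = (-,2,1)^(a₁-1) (-,a₂+1,1)` to `plus 2`, `u_- = (-,2,1)^(a₁-1) (-,a₂+2,1)` to `minus 2 1` -/
def pre (a : ℕ → ℕ) (b : Bool) : List Sym :=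
  List.replicate (a 0 - 1) ⟨false, 2, 1⟩ ++ [⟨false, a 1 + 1 + b.toNat, 1⟩]

/-! ## Chains of nested bands (abstract) -/

/-- `x j` maps the nested intervals `[l j, h j]` increasingly onto `[-2,2]`, with distortion
`|x''| ≤ K x'^2`, and the lengths decrease geometrically -/
structure IsChain (K : ℝ) (n : ℕ) (x : ℕ → ℝ → ℝ) (l h : ℕ → ℝ) : Prop where
  lt : ∀ j ≤ n, l j < h j
  nl : ∀ j < n, l j ≤ l (j + 1)
  nh : ∀ j < n, h (j + 1) ≤ h j
  rat : ∀ j < n, h (j + 1) - l (j + 1) ≤ (1 - 1 / K) * (h j - l j)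
  cd : ∀ j ≤ n, ContDiff ℝ 2 (x j)
  xl : ∀ j ≤ n, x j (l j) = -2
  xh : ∀ j ≤ n, x j (h j) = 2
  pos : ∀ j ≤ n, ∀ t ∈ Icc (l j) (h j), 0 < deriv (x j) t
  dis : ∀ j ≤ n, ∀ t ∈ Icc (l j) (h j), |deriv (deriv (x j)) t| ≤ K * (deriv (x j) t) ^ 2

/-! ## Upper box dimension, Gauss map, potential, operator -/

/-- upper box-counting (Minkowski) dimension -/
def ubd (K : Set ℝ) : EReal :=
  limsup (fun ε : ℝ => ((Real.log ((Metric.externalCoveringNumber (Real.toNNReal ε) K).toNat : ℝ) /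
    Real.log (1 / ε) : ℝ) : EReal)) (𝓝[>] 0)

/-- Gauss map `x ↦ {1/x}` -/
def gauss (x : ℝ) : ℝ := Int.fract x⁻¹

/-- partial quotients: `dig x n = a_{n+1}` -/
def dig (x : ℝ) (n : ℕ) : ℕ := ⌊(gauss^[n] x)⁻¹⌋₊

/-- the Sturmian potential -/
def pot (lam α ω : ℝ) (n : ℤ) : ℝ := if 1 - α ≤ Int.fract (n * α + ω) then lam else 0

/-- `ℓ²(ℤ)` -/
abbrev L2Z := lp (fun _ : ℤ => ℂ) 2

/-- `H` is the discrete Schrödinger operator with potential `v` -/
def IsSchr (v : ℤ → ℝ) (H : L2Z →L[ℂ] L2Z) : Prop :=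
  ∀ (ψ : L2Z) (n : ℤ), (H ψ : ℤ → ℂ) n = ψ (n + 1) + ψ (n - 1) + (v n : ℂ) * ψ n

end H31.ST
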