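import Pool.Agent.H31.ST.Statement

/-!
# The Sturmian Hamiltonian as a bounded operator on Mathlib's `ℓ²(ℤ)`, and its spectrum
helper31
-/

open Set Filter Topology MeasureTheory

noncomputable section

namespace Pool.Agent.H31.Sturm

/-- `ℓ²(ℤ)` -/
abbrev L2 := lp (fun _ : ℤ => ℂ) 2

theorem abs_potential_le (lam α ω : ℝ) (n : ℤ) : |potential lam α ω n| ≤ |lam| := by
  unfold potential
  split
  · exact le_refl _
  · simp

theorem memℓp_shift (ψ : L2) (k : ℤ) : Memℓp (fun n : ℤ => ψ (n + k)) 2 := by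
  have h := lp.memℓp ψ
  rw [memℓp_gen_iff (by norm_num)] at h ⊢
  exact (Equiv.addRight k).summable_iff.mpr h

theorem memℓp_mul (v : ℤ → ℝ) (C : ℝ) (hv : ∀ n, |v n| ≤ C) (ψ : L2) :
    Memℓp (fun n : ℤ => (v n : ℂ) * ψ n) 2 := by
  have h := lp.memℓp ψ
  rw [memℓp_gen_iff (by norm_num)] at h ⊢
  have hC : 0 ≤ C := (abs_nonneg _).trans (hv 0)
  refine Summable.of_nonneg_of_le (fun n => by positivity) (fun n => ?_)
    (h.mul_left (C ^ (2 : ENNReal).toReal))
  rw [norm_mul, Complex.norm_real, Real.norm_eq_abs, Real.mul_rpow (abs_nonneg _) (norm_nonneg _)]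
  apply mul_le_mul_of_nonneg_right _ (by positivity)
  exact Real.rpow_le_rpow (abs_nonneg _) (hv n) (by norm_num)

/-- the translate of a sequence: `n ↦ ψ(n + k)` -/
def shiftFun (k : ℤ) (ψ : L2) : L2 := ⟨fun n => ψ (n + k), memℓp_shift ψ k⟩

theorem shiftFun_add (k : ℤ) (ψ φ : L2) : shiftFun k (ψ + φ) = shiftFun k ψ + shiftFun k φ := by
  ext n; simp [shiftFun]

theorem shiftFun_smul (k : ℤ) (c : ℂ) (ψ : L2) : shiftFun k (c • ψ) = c • shiftFun k ψ := by
  ext n; simp [shiftFun]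

theorem shiftFun_norm (k : ℤ) (ψ : L2) : ‖shiftFun k ψ‖ ≤ 1 * ‖ψ‖ := by
  rw [one_mul]
  apply le_of_eq
  unfold shiftFun
  rw [lp.norm_eq_tsum_rpow (by norm_num), lp.norm_eq_tsum_rpow (by norm_num)]
  congr 1
  exact (Equiv.addRight k).tsum_eq (fun n : ℤ => ‖ψ n‖ ^ (2 : ENNReal).toReal)

/-- translation `(T_k ψ)(n) = ψ(n + k)` as a bounded operator -/
def shift (k : ℤ) : L2 →L[ℂ] L2 :=
  LinearMap.mkContinuous ⟨⟨shiftFun k, shiftFun_add k⟩, shiftFun_smul k⟩ 1 (shiftFun_norm k)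

theorem shift_apply (k : ℤ) (ψ : L2) (n : ℤ) : (shift k ψ : ℤ → ℂ) n = ψ (n + k) := rfl

/-- the product of a sequence with the Sturmian potential: `n ↦ V(n) ψ(n)` -/
def mulFun (lam α ω : ℝ) (ψ : L2) : L2 :=
  ⟨fun n => (potential lam α ω n : ℂ) * ψ n,
    memℓp_mul (potential lam α ω) |lam| (abs_potential_le lam α ω) ψ⟩

theorem mulFun_add (lam α ω : ℝ) (ψ φ : L2) :
    mulFun lam α ω (ψ + φ) = mulFun lam α ω ψ + mulFun lam α ω φ := by
  ext n; simp [mulFun, mul_add]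

theorem mulFun_smul (lam α ω : ℝ) (c : ℂ) (ψ : L2) :
    mulFun lam α ω (c • ψ) = c • mulFun lam α ω ψ := by
  ext n; simp [mulFun, mul_left_comm]

theorem mulFun_norm (lam α ω : ℝ) (ψ : L2) : ‖mulFun lam α ω ψ‖ ≤ |lam| * ‖ψ‖ := by
  have hC : 0 ≤ |lam| := abs_nonneg _
  refine lp.norm_le_of_tsum_le (by norm_num) (by positivity) ?_
  have h := lp.memℓp ψ
  rw [memℓp_gen_iff (by norm_num)] at h
  have h2 := memℓp_mul (potential lam α ω) |lam| (abs_potential_le lam α ω) ψ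
  rw [memℓp_gen_iff (by norm_num)] at h2
  rw [Real.mul_rpow hC (norm_nonneg _), lp.norm_rpow_eq_tsum (by norm_num), ← tsum_mul_left]
  refine Summable.tsum_le_tsum (fun n => ?_) h2 (h.mul_left _)
  simp only [mulFun]
  rw [norm_mul, Complex.norm_real, Real.norm_eq_abs,
    Real.mul_rpow (abs_nonneg _) (norm_nonneg _)]
  apply mul_le_mul_of_nonneg_right _ (by positivity)
  exact Real.rpow_le_rpow (abs_nonneg _) (abs_potential_le lam α ω n) (by norm_num)

/-- multiplication by the Sturmian potential as a bounded operator -/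
def mulOp (lam α ω : ℝ) : L2 →L[ℂ] L2 :=
  LinearMap.mkContinuous ⟨⟨mulFun lam α ω, mulFun_add lam α ω⟩, mulFun_smul lam α ω⟩ |lam|
    (mulFun_norm lam α ω)

theorem mulOp_apply (lam α ω : ℝ) (ψ : L2) (n : ℤ) :
    (mulOp lam α ω ψ : ℤ → ℂ) n = (potential lam α ω n : ℂ) * ψ n := rfl

/-- the Sturmian Hamiltonian as a bounded operator on `ℓ²(ℤ)` -/
def hamOp (lam α ω : ℝ) : L2 →L[ℂ] L2 :=
  shift 1 + shift (-1) + mulOp lam α ω

theorem hamOp_apply (lam α ω : ℝ) (ψ : L2) (n : ℤ) :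
    (hamOp lam α ω ψ : ℤ → ℂ) n = hamiltonian lam α ω (fun n => ψ n) n := rfl

theorem isL2_iff (ψ : ℤ → ℂ) : IsL2 ψ ↔ Memℓp ψ 2 := by
  rw [memℓp_gen_iff (by norm_num), IsL2]
  simp

/-- `spec` is the real part of the spectrum of the bounded operator -/
theorem spec_eq (lam α ω : ℝ) :
    spec lam α ω = {E : ℝ | (E : ℂ) ∈ spectrum ℂ (hamOp lam α ω)} := by
  ext E
  simp only [spec, Set.mem_ofPred_eq, spectrum.mem_iff]
  rw [not_iff_not, ContinuousLinearMap.isUnit_iff_bijective, Function.bijective_iff_existsUnique]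
  have hval : ∀ (ψ : L2) (n : ℤ),
      ((algebraMap ℂ (L2 →L[ℂ] L2) (E : ℂ) - hamOp lam α ω) ψ : ℤ → ℂ) n =
        E * ψ n - hamiltonian lam α ω (fun n => ψ n) n := by
    intro ψ n
    rfl
  constructor
  · intro h b
    have hb : IsL2 (fun n => -(b n)) := by
      have h1 := (isL2_iff (fun n => b n)).2 (lp.memℓp b)
      simpa [IsL2] using h1
    obtain ⟨ψ, ⟨h1, h2⟩, h3⟩ := h (fun n => -(b n)) hb
    refine ⟨⟨ψ, (isL2_iff ψ).1 h1⟩, ?_, ?_⟩
    · ext n
      rw [hval]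
      have := h2 n
      simp only at this ⊢
      linear_combination (-1) * this
    · intro φ hφ
      have h4 := h3 (fun n => φ n) ⟨(isL2_iff _).2 (lp.memℓp φ), fun n => by
        have h5 : ((algebraMap ℂ (L2 →L[ℂ] L2) (E : ℂ) - hamOp lam α ω) φ : ℤ → ℂ) n = b n := by
          rw [hφ]
        rw [hval] at h5
        linear_combination (-1) * h5⟩
      ext n
      exact congrFun h4 n
  · intro h φ hφ
    obtain ⟨ψ, h1, h2⟩ := h (-(⟨φ, (isL2_iff φ).1 hφ⟩ : L2))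
    refine ⟨fun n => ψ n, ⟨(isL2_iff _).2 (lp.memℓp ψ), fun n => ?_⟩, ?_⟩
    · have h5 : ((algebraMap ℂ (L2 →L[ℂ] L2) (E : ℂ) - hamOp lam α ω) ψ : ℤ → ℂ) n = -(φ n) := by
        rw [h1]; rfl
      rw [hval] at h5
      linear_combination (-1) * h5
    · intro χ hχ
      have h6 := h2 ⟨χ, (isL2_iff χ).1 hχ.1⟩ (by
        ext n
        rw [hval]
        have := hχ.2 n
        show E * χ n - hamiltonian lam α ω (fun n => χ n) n = -(φ n)
        linear_combination (-1) * this)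
      funext n
      rw [← h6]

end Pool.Agent.H31.Sturm
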