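import Mathlib

/-!
# The Sturmian Hamiltonian, its spectrum and the upper box-counting dimension
(definitions used in the hand-in for MP_0b97f5_mp).  helper31
-/

open Set Filter Topology

noncomputable section

namespace Pool.Agent.H31.Sturm

/-- the potential `V(n) = λ χ_{[1-α,1)}(nα + ω mod 1)` -/
def potential (lam α ω : ℝ) (n : ℤ) : ℝ :=
  if Int.fract (n * α + ω) ∈ Set.Ico (1 - α) 1 then lam else 0

/-- the Sturmian Hamiltonian `(Hψ)(n) = ψ(n+1) + ψ(n-1) + V(n) ψ(n)` -/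
def hamiltonian (lam α ω : ℝ) (ψ : ℤ → ℂ) (n : ℤ) : ℂ :=
  ψ (n + 1) + ψ (n - 1) + potential lam α ω n * ψ n

/-- square summable sequences, the elements of `ℓ²(ℤ)` -/
def IsL2 (ψ : ℤ → ℂ) : Prop := Summable fun n => ‖ψ n‖ ^ 2

/-- the spectrum of the (bounded, self-adjoint) operator `H` on `ℓ²(ℤ)`: the real numbers `E` for
which `H - E` is not a bijection of `ℓ²(ℤ)` onto itself -/
def spec (lam α ω : ℝ) : Set ℝ :=
  {E | ¬ ∀ φ : ℤ → ℂ, IsL2 φ →
    ∃! ψ : ℤ → ℂ, IsL2 ψ ∧ ∀ n, hamiltonian lam α ω ψ n - E * ψ n = φ n}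

/-- upper box-counting dimension: `limsup_{ε → 0+} log N(ε) / log (1/ε)`, where `N(ε)` is the
minimal number of closed balls of radius `ε` which cover `K` -/
def upperBoxDim (K : Set ℝ) : EReal :=
  limsup (fun ε : ℝ => ((Real.log ((Metric.externalCoveringNumber (Real.toNNReal ε) K).toNat : ℝ) /
    Real.log (1 / ε) : ℝ) : EReal)) (𝓝[>] 0)

end Pool.Agent.H31.Sturm
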